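import Pool.Agent.Q291.AD.Rec

/-!
The arms of the exploration path with defects.
-/

set_option autoImplicit false
set_option maxHeartbeats 2000000

namespace Q291.AD

open H974 Finset H12S Q291.EP Q291.NL H342P H984P H984N

variable {κ : Bool} {S X Y F Q G : Finset Edg} {τ : ℝ}

theorem cS_mono (κ : Bool) {A B : Finset Edg} (h : A ⊆ B) : cS κ A ⊆ cS κ B := by
  cases κ
  · intro g hg
    simp only [cS, Bool.false_eq_true, if_false] at hg ⊢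
    rw [mem_dmp] at hg ⊢
    exact h hg
  · simpa only [cS, if_true] using h

theorem cS_inter (κ : Bool) (A B : Finset Edg) : cS κ (A ∩ B) = cS κ A ∩ cS κ B := by
  cases κ
  · simp only [cS, Bool.false_eq_true, if_false]
    exact dmp_inter A B
  · simp only [cS, if_true]

/-- The defects of the colour configuration. -/
theorem adm_cf (hF : F ⊆ S) (hQ : Q ⊆ S) (h : Adm F Q G) :
    Adm (cf κ S F) (cS κ Q) (cf κ S G) := by
  have hG := h.sub hF hQ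
  cases κ
  · intro e he
    simp only [cf, cS, Bool.false_eq_true, if_false] at he ⊢
    rw [mem_dmp] at he
    rw [mem_dmp, mem_dmp, Finset.mem_sdiff, Finset.mem_sdiff, h _ he]
  · simpa only [cf, cS, if_true] using h

theorem P2_cf (κ : Bool) (τ : ℝ) (S : Finset Edg) (A : Finset Edg → Finset Edg → Prop) :
    P2 τ S (fun F Q => A (cf κ S F) (cS κ Q)) = P2 τ (cS κ S) A := by
  cases κ
  · simp only [cf, cS, Bool.false_eq_true, if_false]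
    have h1 : P2 τ (dmp S) A = P2 τ S (fun F Q => A (dmp F) (dmp Q)) :=
      P2_map τ dl.toEmbedding S A
    rw [h1]
    exact P2_compl τ S (fun F Q => A (dmp F) (dmp Q))
  · simp only [cf, cS, if_true]

theorem loc_cf {B : Finset Edg → Finset Edg → Prop} (hB : Loc2 (cS κ S) Y B) :
    Loc2 S (ics κ Y) (fun F Q => B (cf κ S F) (cS κ Q)) := by
  intro F Q hF hQ
  have hF' : F ∩ ics κ Y ⊆ S := Finset.inter_subset_left.trans hF
  have hQ' : Q ∩ ics κ Y ⊆ S := Finset.inter_subset_left.trans hQ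
  have e1 : cf κ S F ∩ Y = cf κ S (F ∩ ics κ Y) ∩ Y := by
    have := cf_loc κ (S := S) (X := ics κ Y) F
    rwa [cS_ics] at this
  have e2 : cS κ Q ∩ Y = cS κ (Q ∩ ics κ Y) ∩ Y := by
    rw [cS_inter, cS_ics, Finset.inter_assoc, Finset.inter_self]
  show B (cf κ S F) (cS κ Q) ↔ B (cf κ S (F ∩ ics κ Y)) (cS κ (Q ∩ ics κ Y))
  rw [hB _ _ (cf_sub hF) (cS_mono κ hQ), hB _ _ (cf_sub hF') (cS_mono κ hQ'), e1, e2]

theorem ics_sdiff (κ : Bool) (A B : Finset Edg) : ics κ (A \ B) = ics κ A \ ics κ B := by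
  ext g
  rw [Finset.mem_sdiff, mem_ics, mem_ics, mem_ics, Finset.mem_sdiff]

/-- The crossing event with defects. -/
def CrD (D : Dm) (aa ss κ : Bool) (X : ℤ) (z : Vtx) (r0 R0 : ℕ) (F Q : Finset Edg) : Prop :=
  Cr z r0 R0 (↑((cf κ D.edges F ∪ cS κ Q) ∩ cS κ (Th D aa ss X)) : Set Edg)

theorem crD_loc {D : Dm} {aa ss κ : Bool} {X : ℤ} {z : Vtx} {r0 R0 : ℕ} (h : r0 ≤ R0) :
    Loc2 D.edges (ics κ (bx z R0) \ ics κ (bx z r0)) (CrD D aa ss κ X z r0 R0) := by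
  rw [← ics_sdiff]
  have h1 : ∀ G : Finset Edg, Cr z r0 R0 (↑(G ∩ cS κ (Th D aa ss X)) : Set Edg) ↔
      Cr z r0 R0 (↑((G ∩ (bx z R0 \ bx z r0)) ∩ cS κ (Th D aa ss X)) : Set Edg) := by
    intro G
    rw [Cr_loc h]
    have : G ∩ cS κ (Th D aa ss X) ∩ (bx z R0 \ bx z r0) =
        G ∩ (bx z R0 \ bx z r0) ∩ cS κ (Th D aa ss X) := by
      ext x
      simp only [Finset.mem_inter]
      tauto
    rw [this]
  exact loc_cf (κ := κ) (B := fun F Q => Cr z r0 R0 (↑((F ∪ Q) ∩ cS κ (Th D aa ss X)) : Set Edg))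
    (union_loc (B := fun G => Cr z r0 R0 (↑(G ∩ cS κ (Th D aa ss X)) : Set Edg)) h1 _)

theorem crD_of {D : Dm} {aa ss κ : Bool} {X : ℤ} {z : Vtx} {r0 R0 : ℕ} (hF : F ⊆ D.edges)
    (hQ : Q ⊆ D.edges) (h : Adm F Q G)
    (hc : Cr z r0 R0 (↑(cf κ D.edges G ∩ cS κ (Th D aa ss X)) : Set Edg)) :
    CrD D aa ss κ X z r0 R0 F Q := by
  refine hc.mono ?_
  have h1 := (adm_cf (κ := κ) hF hQ h).le
  exact_mod_cast Finset.inter_subset_inter_right h1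

theorem crD_pr {C ε : ℝ} (hC : ∀ a s : Bool, Sta C ε a s) (h0 : 0 ≤ τ) (h1 : τ ≤ 1) {D : Dm}
    {aa ss κ : Bool} {X : ℤ} {z : Vtx} (hz : co aa z = X) {n : ℕ}
    (hη : τ ≤ ε * (n:ℝ) ^ (-(3/4) : ℝ)) {r0 R0 : ℕ} (hr1 : 1 ≤ r0) (hr2 : r0 ≤ R0)
    (hr3 : R0 ≤ n) :
    P2 τ D.edges (CrD D aa ss κ X z r0 R0) ≤ C * ((r0:ℝ) / R0) ^ (7/24 : ℝ) := by
  have hTh : Th D aa ss X ⊆ D.edges := fun g hg => (mem_Th.mp hg).1
  have hsub : cS κ (Th D aa ss X) ⊆ cS κ D.edges := cS_mono κ hTh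
  have e1 : P2 τ D.edges (CrD D aa ss κ X z r0 R0) = P2 τ (cS κ D.edges)
      (fun F Q => Cr z r0 R0 (↑((F ∪ Q) ∩ cS κ (Th D aa ss X)) : Set Edg)) :=
    P2_cf κ τ D.edges (fun F Q => Cr z r0 R0 (↑((F ∪ Q) ∩ cS κ (Th D aa ss X)) : Set Edg))
  have e2 : P2 τ (cS κ D.edges)
      (fun F Q => Cr z r0 R0 (↑((F ∪ Q) ∩ cS κ (Th D aa ss X)) : Set Edg)) =
      P2 τ (cS κ (Th D aa ss X))
      (fun F Q => Cr z r0 R0 (↑((F ∪ Q) ∩ cS κ (Th D aa ss X)) : Set Edg)) := by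
    apply P2_local hsub
    apply union_loc (B := fun G => Cr z r0 R0 (↑(G ∩ cS κ (Th D aa ss X)) : Set Edg))
    intro G
    rw [Finset.inter_assoc, Finset.inter_self]
  have e3 : P2 τ (cS κ (Th D aa ss X))
      (fun F Q => Cr z r0 R0 (↑((F ∪ Q) ∩ cS κ (Th D aa ss X)) : Set Edg)) =
      P2 τ (cS κ (Th D aa ss X)) (fun F Q => Cr z r0 R0 (↑(F ∪ Q) : Set Edg)) := by
    apply P2_congr
    intro F Q hF hQ
    rw [Finset.inter_eq_left.mpr (Finset.union_subset hF hQ)]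
  rw [e1, e2, e3]
  have hX : ∃ X' : ℤ, |X - X'| ≤ 1 ∧ ∀ e ∈ cS κ (Th D aa ss X),
      hpl aa ss X' (src e) ∧ hpl aa ss X' (tgt e) := by
    cases κ
    · refine ⟨if ss then X else X - 1, ?_, ?_⟩
      · cases ss <;> simp
      · intro e he
        simp only [cS, Bool.false_eq_true, if_false] at he
        rw [mem_dmp, mem_Th] at he
        obtain ⟨-, h2, h3⟩ := he
        obtain ⟨x, y, _ | _⟩ := e
        · rw [dls_f] at h2 h3
          cases aa <;> cases ss <;>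
            simp only [hpl, src_mk, tgt_true, tgt_false, Bool.false_eq_true, if_false,
              if_true] at h2 h3 ⊢ <;> omega
        · rw [dls_t] at h2 h3
          cases aa <;> cases ss <;>
            simp only [hpl, src_mk, tgt_true, tgt_false, Bool.false_eq_true, if_false,
              if_true] at h2 h3 ⊢ <;> omega
    · refine ⟨X, by simp, ?_⟩
      intro e he
      simp only [cS, if_true] at he
      exact (mem_Th.mp he).2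
  obtain ⟨X', hX1, hX2⟩ := hX
  exact cr_def hC h0 h1 hX2 (by rw [hz]; exact hX1) hη hr1 hr2 hr3

/-- The four-arm event of a colour with defects. -/
def A4C (D : Dm) (κ : Bool) (k : ℕ) (e : Edg) (F Q : Finset Edg) : Prop :=
  A4D k (ce κ e) (cf κ D.edges F) (cS κ Q)

theorem a4C_loc (D : Dm) (κ : Bool) (k : ℕ) (e : Edg) :
    Loc2 D.edges ((ics κ (ebx (ce κ e) k)).erase e) (A4C D κ k e) := by
  have h1 := loc_cf (κ := κ) (A4D_loc k (ce κ e) (cS κ D.edges))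
  refine h1.mono ?_
  intro g hg
  rw [mem_ics, Finset.mem_erase] at hg
  rw [Finset.mem_erase, mem_ics]
  exact ⟨fun h => hg.1 (by rw [h]), hg.2⟩

theorem a4C_pr {K : ℝ} {D : Dm} {e : Edg} {κ : Bool} {k : ℕ} (hQF : QF K τ k)
    (hins : Ins D e k) : P2 τ D.edges (A4C D κ k e) ≤ K * ((k:ℝ) + 1) ^ (-(5/4) : ℝ) := by
  have e1 : P2 τ D.edges (A4C D κ k e) = P2 τ (cS κ D.edges) (A4D k (ce κ e)) :=
    P2_cf κ τ D.edges (A4D k (ce κ e))
  rw [e1]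
  apply hQF.big
  rw [← cS_ics κ (ebx (ce κ e) k)]
  exact cS_mono κ (ics_sub hins)

theorem a4C_of {D : Dm} {κ : Bool} {k : ℕ} {e : Edg} (hF : F ⊆ D.edges) (hQ : Q ⊆ D.edges)
    (h : Adm F Q G) (h4 : A4e k (ce κ e) (↑(cf κ D.edges G) : Set Edg)) : A4C D κ k e F Q :=
  ⟨_, adm_cf hF hQ h, h4⟩

/-- Positions. -/
theorem in_box {aa κ κ' : Bool} {X : ℤ} {e g : Edg} {J k : ℕ}
    (hnear : |co aa (src e) - X| ≤ 2 ^ (J + 1)) (hk : k + 4 ≤ 2 ^ (J + 1))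
    (hg : g ∈ ics κ (ebx (ce κ e) k)) : g ∈ ics κ' (bx (zl aa X e) (8 * 2 ^ J)) := by
  have hr4 : 8 * 2 ^ J = 4 * 2 ^ (J + 1) := by rw [pow_succ]; ring
  have hez : sd (src e) (zl aa X e) ≤ 2 ^ (J + 1) :=
    sd_zl_le hnear (by rw [det_sd_self]; positivity)
  have hcn := ce_near κ e
  rw [mem_ics]
  apply mem_bx_of
  rw [mem_ics] at hg
  have c1 := ce_near κ g
  have c2 := ce_near κ' g
  have hge : sd ((ce κ' g).1, (ce κ' g).2.1) (e.1, e.2.1) ≤ k + 2 := by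
    have h3 := RE_ends (show ce κ g ∈ RE ((ce κ e).1 - k) ((ce κ e).1 + k) ((ce κ e).2.1 - k)
      ((ce κ e).2.1 + k) from hg)
    have h4 : src (ce κ g) = ((ce κ g).1, (ce κ g).2.1) := rfl
    unfold inR at h3
    rw [h4] at h3
    simp only at h3
    unfold sd
    rw [max_le_iff, abs_le, abs_le]
    simp only
    omega
  have h5 := det_sd_tri ((ce κ' g).1, (ce κ' g).2.1) (e.1, e.2.1) (zl aa X e)
  have h6 : sd (e.1, e.2.1) (zl aa X e) ≤ 2 ^ (J + 1) := hez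
  have h8 : (k:ℤ) + 4 ≤ 2 ^ (J + 1) := by exact_mod_cast hk
  have h7 : ((8 * 2 ^ J : ℕ) : ℤ) = 4 * 2 ^ (J + 1) := by rw [hr4]; push_cast; ring
  rw [h7]
  linarith

theorem e_in_box {aa κ' : Bool} {X : ℤ} {e : Edg} {J : ℕ}
    (hnear : |co aa (src e) - X| ≤ 2 ^ (J + 1)) : e ∈ ics κ' (bx (zl aa X e) (8 * 2 ^ J)) := by
  have hr4 : 8 * 2 ^ J = 4 * 2 ^ (J + 1) := by rw [pow_succ]; ring
  have hez : sd (src e) (zl aa X e) ≤ 2 ^ (J + 1) :=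
    sd_zl_le hnear (by rw [det_sd_self]; positivity)
  have c2 := ce_near κ' e
  rw [mem_ics]
  apply mem_bx_of
  have hge : sd ((ce κ' e).1, (ce κ' e).2.1) (e.1, e.2.1) ≤ 1 := by
    unfold sd
    rw [max_le_iff, abs_le, abs_le]
    simp only
    omega
  have h5 := det_sd_tri ((ce κ' e).1, (ce κ' e).2.1) (e.1, e.2.1) (zl aa X e)
  have h6 : sd (e.1, e.2.1) (zl aa X e) ≤ 2 ^ (J + 1) := hez
  have h7 : ((8 * 2 ^ J : ℕ) : ℤ) = 4 * 2 ^ (J + 1) := by rw [hr4]; push_cast; ring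
  have h8 : (1:ℤ) ≤ 2 ^ (J + 1) := one_le_pow₀ (by norm_num)
  rw [h7]
  linarith

/-- The event that `e` is a defect with the arms. -/
def AD (D : Dm) (w : ℕ) (e : Edg) (aa ss κ κ' : Bool) (X : ℤ) (J : ℕ) (F Q : Finset Edg) : Prop :=
  e ∈ Q ∧ ∃ G, Adm F Q G ∧ Arms D w e G aa ss κ κ' X J

/-- The bound for given types, line and scale. -/
theorem arms_def : ∃ C ε : ℝ, 1 ≤ C ∧ 0 < ε ∧ ∀ (D : Dm) (n w : ℕ), D.h + 1 ≤ n → w ≤ n →
    ∀ (e : Edg) (τ : ℝ), e ∈ D.edges → 0 ≤ τ → τ ≤ 1 → τ ≤ ε * (n:ℝ) ^ (-(3/4) : ℝ) →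
    ∀ (aa ss κ κ' : Bool) (X : ℤ) (J : ℕ),
      P2 τ D.edges (AD D w e aa ss κ κ' X J) ≤
        τ * (C * (((2:ℝ) ^ J) ^ (-(23/24) : ℝ) * ((Rr D w e : ℝ) + 1) ^ (-(7/24) : ℝ))) := by
  obtain ⟨C, ε1, hC, hε1, hhp⟩ := hp_all
  obtain ⟨C0, c0, hC0, hc0, hst⟩ := fourD
  refine ⟨(64 * C0) * (16 * C), min ε1 c0, ?_, lt_min hε1 hc0, ?_⟩
  · nlinarith
  intro D n w hn hw e τ he h0 h1 hη aa ss κ κ' X J
  have hC00 : (0:ℝ) < C0 := by linarith
  have hx : (0:ℝ) < 2 ^ J := by positivity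
  have hR1 : (0:ℝ) < (Rr D w e : ℝ) + 1 := by positivity
  have hid : ((2:ℝ) ^ J) ^ (-(5/4) : ℝ) * ((2:ℝ) ^ J / ((Rr D w e : ℝ) + 1)) ^ (7/24 : ℝ) =
      ((2:ℝ) ^ J) ^ (-(23/24) : ℝ) * ((Rr D w e : ℝ) + 1) ^ (-(7/24) : ℝ) := by
    have hinv : ((Rr D w e : ℝ) + 1) ^ (-(7/24) : ℝ) = (((Rr D w e : ℝ) + 1) ^ (7/24 : ℝ))⁻¹ :=
      Real.rpow_neg hR1.le _
    have hx2 : ((2:ℝ) ^ J) ^ (-(5/4) : ℝ) * ((2:ℝ) ^ J) ^ (7/24 : ℝ) =
        ((2:ℝ) ^ J) ^ (-(23/24) : ℝ) := by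
      rw [← Real.rpow_add hx]; norm_num
    rw [Real.div_rpow hx.le hR1.le, hinv, ← hx2]
    ring
  -- outside the range of scales the event is empty
  by_cases hsc : (2:ℤ) ^ J ≤ D.h + 1
  swap
  · rw [P2_false _ (fun F Q _ _ h => by obtain ⟨-, G, -, hA⟩ := h; exact hsc hA.scale)]
    positivity
  have hJn : 2 ^ J ≤ n := by
    have : (2:ℤ) ^ J ≤ n := hsc.trans hn
    exact_mod_cast this
  have hn1 : 1 ≤ n := le_trans Nat.one_le_two_pow hJn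
  by_cases hne : |co aa (src e) - X| ≤ 2 ^ (J + 1)
  swap
  · rw [P2_false _ (fun F Q _ _ h => by obtain ⟨-, G, -, hA⟩ := h; exact hne hA.near)]
    positivity
  have hnp : 0 ≤ (n:ℝ) ^ (-(3/4) : ℝ) := by positivity
  have hη1 : τ ≤ ε1 * (n:ℝ) ^ (-(3/4) : ℝ) :=
    hη.trans (mul_le_mul_of_nonneg_right (min_le_left _ _) hnp)
  have hη2 : τ ≤ c0 * (n:ℝ) ^ (-(3/4) : ℝ) :=
    hη.trans (mul_le_mul_of_nonneg_right (min_le_right _ _) hnp)
  have hA4 := hst τ h0 h1 n hn1 hη2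
  have hRn : Rr D w e ≤ n := by
    refine le_trans ?_ hw
    unfold Rr
    have := min_le_left w (min (sd (src e) (0, 0)).toNat (sd (src e) (D.t, D.h)).toNat)
    omega
  have hJ1 : 1 ≤ 2 ^ J := Nat.one_le_two_pow
  have hl3 := mem_loc e D.edges
  have hmem : P2 τ D.edges (fun _ Q => e ∈ Q) = τ := P2_mem τ he
  -- the defect and the crossing
  have hone : 8 * 2 ^ J < Rr D w e → P2 τ D.edges (fun F Q => e ∈ Q ∧
      CrD D aa ss κ' X (zl aa X e) (8 * 2 ^ J) (Rr D w e) F Q) ≤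
      τ * (C * (((8 * 2 ^ J : ℕ) : ℝ) / (Rr D w e : ℕ)) ^ (7/24 : ℝ)) := by
    intro hR
    have h2 := crD_pr (κ := κ') (ss := ss) hhp h0 h1 (D := D) (co_zl aa X e) hη1
      (r0 := 8 * 2 ^ J) (by omega) hR.le hRn
    have hd : Disjoint ({e} : Finset Edg) (ics κ' (bx (zl aa X e) (Rr D w e)) \
        ics κ' (bx (zl aa X e) (8 * 2 ^ J))) := by
      rw [Finset.disjoint_singleton_left, Finset.mem_sdiff]
      exact fun h => h.2 (e_in_box hne)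
    exact (P2_two h0 h1 hd hl3 (crD_loc hR.le) hmem.le).trans (mul_le_mul_of_nonneg_left h2 h0)
  -- the three bounds
  have hkJ : 4 ≤ J → 2 ^ (J - 2) + 4 ≤ 2 ^ (J + 1) ∧ 1 ≤ 2 ^ (J - 2) ∧ 2 ^ (J - 2) ≤ n := by
    intro h
    have h1 : J + 1 = (J - 2) + 3 := by omega
    have h2 : 1 ≤ 2 ^ (J - 2) := Nat.one_le_two_pow
    have h3 : J = (J - 2) + 2 := by omega
    have h4 : 2 ^ J = 4 * 2 ^ (J - 2) := by
      conv_lhs => rw [h3, pow_add]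
      ring
    refine ⟨?_, h2, by omega⟩
    rw [h1, pow_add]
    omega
  have key : ∃ α β : ℝ, 0 ≤ α ∧ P2 τ D.edges (AD D w e aa ss κ κ' X J) ≤
      τ * (α * β) ∧ ((4 ≤ J ∧ α ≤ C0 * (((2 ^ (J - 2) : ℕ) : ℝ) + 1) ^ (-(5/4) : ℝ)) ∨
        (J < 4 ∧ α ≤ 1)) ∧ ((8 * 2 ^ J < Rr D w e ∧
          β ≤ C * (((8 * 2 ^ J : ℕ) : ℝ) / (Rr D w e : ℕ)) ^ (7/24 : ℝ)) ∨
      (Rr D w e ≤ 8 * 2 ^ J ∧ β ≤ 1)) := by
    rcases Nat.lt_or_ge J 4 with hJ4 | hJ4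
    · rcases Nat.lt_or_ge (8 * 2 ^ J) (Rr D w e) with hR | hR
      · refine ⟨1, _, by norm_num, ?_, Or.inr ⟨hJ4, le_rfl⟩, Or.inl ⟨hR, le_rfl⟩⟩
        rw [one_mul]
        refine (P2_mono h0 h1 ?_).trans (hone hR)
        rintro F Q hF hQ ⟨heQ, G, hG, hA⟩
        exact ⟨heQ, crD_of hF hQ hG (hA.cross hR)⟩
      · refine ⟨1, 1, by norm_num, ?_, Or.inr ⟨hJ4, le_rfl⟩, Or.inr ⟨hR, le_rfl⟩⟩
        rw [one_mul, mul_one]
        exact (P2_mono h0 h1 (fun F Q _ _ h => h.1)).trans hmem.le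
    · obtain ⟨k1, k2, k3⟩ := hkJ hJ4
      have hQFJ := hA4 (2 ^ (J - 2)) k3
      obtain ⟨α, hα⟩ : ∃ α : ℝ, α = C0 * (((2 ^ (J - 2) : ℕ) : ℝ) + 1) ^ (-(5/4) : ℝ) := ⟨_, rfl⟩
      have hα0 : 0 ≤ α := by rw [hα]; positivity
      by_cases hins : Ins D e (2 ^ (J - 2))
      swap
      · have hz : P2 τ D.edges (AD D w e aa ss κ κ' X J) = 0 :=
          P2_false _ (fun F Q _ _ h => by obtain ⟨-, G, -, hA⟩ := h; exact hins (hA.four hJ4).2)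
        rcases Nat.lt_or_ge (8 * 2 ^ J) (Rr D w e) with hR | hR
        · exact ⟨0, _, le_rfl, by rw [hz, zero_mul, mul_zero], Or.inl ⟨hJ4, by positivity⟩,
            Or.inl ⟨hR, le_rfl⟩⟩
        · exact ⟨0, 1, le_rfl, by rw [hz, zero_mul, mul_zero], Or.inl ⟨hJ4, by positivity⟩,
            Or.inr ⟨hR, le_rfl⟩⟩
      have ha := a4C_pr (D := D) (κ := κ) hQFJ hins
      rw [← hα] at ha
      have hla := a4C_loc D κ (2 ^ (J - 2)) e
      rcases Nat.lt_or_ge (8 * 2 ^ J) (Rr D w e) with hR | hR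
      · refine ⟨α, _, hα0, ?_, Or.inl ⟨hJ4, hα.le⟩, Or.inl ⟨hR, le_rfl⟩⟩
        have hd : Disjoint ((ics κ (ebx (ce κ e) (2 ^ (J - 2)))).erase e)
            ({e} ∪ (ics κ' (bx (zl aa X e) (Rr D w e)) \
              ics κ' (bx (zl aa X e) (8 * 2 ^ J)))) := by
          rw [Finset.disjoint_union_right]
          refine ⟨Finset.disjoint_singleton_right.mpr (Finset.notMem_erase _ _), ?_⟩
          rw [Finset.disjoint_left]
          intro g hg hg'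
          exact (Finset.mem_sdiff.mp hg').2 (in_box hne k1 (Finset.mem_erase.mp hg).2)
        have h2 : P2 τ D.edges (AD D w e aa ss κ κ' X J) ≤ P2 τ D.edges (fun F Q =>
            A4C D κ (2 ^ (J - 2)) e F Q ∧ (e ∈ Q ∧
              CrD D aa ss κ' X (zl aa X e) (8 * 2 ^ J) (Rr D w e) F Q)) := by
          apply P2_mono h0 h1
          rintro F Q hF hQ ⟨heQ, G, hG, hA⟩
          exact ⟨a4C_of hF hQ hG (hA.four hJ4).1, heQ, crD_of hF hQ hG (hA.cross hR)⟩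
        have h3 := P2_two h0 h1 hd hla (hl3.and (crD_loc (D := D) (aa := aa) (ss := ss)
          (κ := κ') (X := X) (z := zl aa X e) hR.le)) ha
        refine h2.trans (h3.trans ((mul_le_mul_of_nonneg_left (hone hR) hα0).trans
          (le_of_eq ?_)))
        ring
      · refine ⟨α, 1, hα0, ?_, Or.inl ⟨hJ4, hα.le⟩, Or.inr ⟨hR, le_rfl⟩⟩
        have hd : Disjoint ((ics κ (ebx (ce κ e) (2 ^ (J - 2)))).erase e) {e} :=
          Finset.disjoint_singleton_right.mpr (Finset.notMem_erase _ _)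
        have h2 : P2 τ D.edges (AD D w e aa ss κ κ' X J) ≤ P2 τ D.edges (fun F Q =>
            A4C D κ (2 ^ (J - 2)) e F Q ∧ e ∈ Q) := by
          apply P2_mono h0 h1
          rintro F Q hF hQ ⟨heQ, G, hG, hA⟩
          exact ⟨a4C_of hF hQ hG (hA.four hJ4).1, heQ⟩
        have h3 := P2_two h0 h1 hd hla hl3 ha
        rw [hmem] at h3
        refine h2.trans (h3.trans (le_of_eq ?_))
        ring
  obtain ⟨α, β, hα0, hP, hα, hβ⟩ := key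
  have h2 := alpha_le hC0 hα
  have h3 := beta_le hC hβ
  refine hP.trans (mul_le_mul_of_nonneg_left ?_ h0)
  have h4 : 0 ≤ 16 * C * ((2:ℝ) ^ J / ((Rr D w e : ℝ) + 1)) ^ (7/24 : ℝ) := by positivity
  calc α * β ≤ α * (16 * C * ((2:ℝ) ^ J / ((Rr D w e : ℝ) + 1)) ^ (7/24 : ℝ)) :=
        mul_le_mul_of_nonneg_left h3 hα0
    _ ≤ (64 * C0 * ((2:ℝ) ^ J) ^ (-(5/4) : ℝ)) *
        (16 * C * ((2:ℝ) ^ J / ((Rr D w e : ℝ) + 1)) ^ (7/24 : ℝ)) :=
        mul_le_mul_of_nonneg_right h2 h4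
    _ = (64 * C0) * (16 * C) * (((2:ℝ) ^ J) ^ (-(5/4) : ℝ) *
        ((2:ℝ) ^ J / ((Rr D w e : ℝ) + 1)) ^ (7/24 : ℝ)) := by ring
    _ = _ := by rw [hid]

end Q291.AD
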