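import Pool.Agent.Q291.NL.Low

/-!
Critical percolation with a random set of defects, whose states are chosen afterwards.
-/

set_option autoImplicit false

namespace Q291.AD

open Finset H974

variable {E : Type*} [DecidableEq E]

/-- The probability of an event which depends on fair coins (`F` is the set of the ones) and on
a set `D` of defects which contains each element with probability `ε`, independently. -/
noncomputable def P2 (ε : ℝ) (S : Finset E) (A : Finset E → Finset E → Prop) : ℝ :=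
  Ex (fun _ => 1 / 2) S (fun F => Pr (fun _ => ε) S (A F))

/-- `G` agrees with `F` outside the defects `D`. -/
def Adm (F D G : Finset E) : Prop := ∀ e, e ∉ D → (e ∈ G ↔ e ∈ F)

/-- The event happens for some choice of the states of the defects. -/
def AA (A : Finset E → Prop) (F D : Finset E) : Prop := ∃ G, Adm F D G ∧ A G

variable {S X Y : Finset E} {ε : ℝ} {A B : Finset E → Finset E → Prop}

theorem okh : Ok (fun _ : E => (1 / 2 : ℝ)) := fun _ => ⟨by norm_num, by norm_num⟩

theorem oke (h0 : 0 ≤ ε) (h1 : ε ≤ 1) : Ok (fun _ : E => ε) := fun _ => ⟨h0, h1⟩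

theorem P2_nonneg (h0 : 0 ≤ ε) (h1 : ε ≤ 1) (S : Finset E) (A : Finset E → Finset E → Prop) :
    0 ≤ P2 ε S A := Ex_nonneg okh fun _ _ => Pr_nonneg (oke h0 h1) _ _

theorem P2_le_one (h0 : 0 ≤ ε) (h1 : ε ≤ 1) (S : Finset E) (A : Finset E → Finset E → Prop) :
    P2 ε S A ≤ 1 := Ex_le_of_le okh fun _ _ => Pr_le_one (oke h0 h1) _ _

theorem P2_mono (h0 : 0 ≤ ε) (h1 : ε ≤ 1) (h : ∀ F D, F ⊆ S → D ⊆ S → A F D → B F D) :
    P2 ε S A ≤ P2 ε S B :=
  Ex_mono okh fun F hF => Pr_mono (oke h0 h1) fun D hD => h F D hF hD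

theorem P2_congr (h : ∀ F D, F ⊆ S → D ⊆ S → (A F D ↔ B F D)) : P2 ε S A = P2 ε S B :=
  Ex_congr fun F hF => Pr_congr fun D hD => h F D hF hD

theorem P2_or (h0 : 0 ≤ ε) (h1 : ε ≤ 1) (S : Finset E) (A B : Finset E → Finset E → Prop) :
    P2 ε S (fun F D => A F D ∨ B F D) ≤ P2 ε S A + P2 ε S B := by
  unfold P2
  rw [← Ex_add]
  exact Ex_mono okh fun F _ => Pr_or_le (oke h0 h1) _ _ _

theorem P2_false (S : Finset E) (h : ∀ F D, F ⊆ S → D ⊆ S → ¬ A F D) : P2 ε S A = 0 := by
  have h1 : P2 ε S A = Ex (fun _ => 1 / 2) S (fun _ => 0) := by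
    unfold P2
    refine Ex_congr fun F hF => ?_
    unfold Pr
    rw [Ex_congr (g := fun _ => 0) (fun D hD => ind_not_of (h F D hF hD)), Ex_const]
  rw [h1, Ex_const]

theorem P2_ex (h0 : 0 ≤ ε) (h1 : ε ≤ 1) {ι : Type*} [DecidableEq ι] (S : Finset E) (J : Finset ι)
    (A : ι → Finset E → Finset E → Prop) :
    P2 ε S (fun F D => ∃ j ∈ J, A j F D) ≤ ∑ j ∈ J, P2 ε S (A j) := by
  induction J using Finset.induction_on with
  | empty =>
    rw [Finset.sum_empty, P2_false S]
    rintro F D _ _ ⟨j, hj, _⟩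
    exact absurd hj (Finset.notMem_empty j)
  | insert a J ha ih =>
    rw [Finset.sum_insert ha]
    refine (P2_mono h0 h1 (B := fun F D => A a F D ∨ ∃ j ∈ J, A j F D) ?_).trans
      ((P2_or h0 h1 S _ _).trans (add_le_add_right ih _))
    rintro F D _ _ ⟨j, hj, h⟩
    rw [Finset.mem_insert] at hj
    rcases hj with rfl | hj
    · exact Or.inl h
    · exact Or.inr ⟨j, hj, h⟩

/-- The event only looks at `X`. -/
def Loc2 (S X : Finset E) (A : Finset E → Finset E → Prop) : Prop :=
  ∀ F D, F ⊆ S → D ⊆ S → (A F D ↔ A (F ∩ X) (D ∩ X))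

theorem Loc2.d (h : Loc2 S X A) {F D : Finset E} (hF : F ⊆ S) (hD : D ⊆ S) :
    A F D ↔ A F (D ∩ X) := by
  rw [h F D hF hD, h F (D ∩ X) hF (Finset.inter_subset_left.trans hD), Finset.inter_assoc,
    Finset.inter_self]

theorem Loc2.f (h : Loc2 S X A) {F D : Finset E} (hF : F ⊆ S) (hD : D ⊆ S) :
    A F D ↔ A (F ∩ X) D := by
  rw [h F D hF hD, h (F ∩ X) D (Finset.inter_subset_left.trans hF) hD, Finset.inter_assoc,
    Finset.inter_self]

theorem Loc2.and (h : Loc2 S X A) (h' : Loc2 S Y B) :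
    Loc2 S (X ∪ Y) (fun F D => A F D ∧ B F D) := by
  intro F D hF hD
  have e1 : ∀ Z : Finset E, Z ∩ (X ∪ Y) ∩ X = Z ∩ X := by
    intro Z; ext x; simp only [Finset.mem_inter, Finset.mem_union]; tauto
  have e2 : ∀ Z : Finset E, Z ∩ (X ∪ Y) ∩ Y = Z ∩ Y := by
    intro Z; ext x; simp only [Finset.mem_inter, Finset.mem_union]; tauto
  have hF' : F ∩ (X ∪ Y) ⊆ S := Finset.inter_subset_left.trans hF
  have hD' : D ∩ (X ∪ Y) ⊆ S := Finset.inter_subset_left.trans hD
  show (A F D ∧ B F D) ↔ (A (F ∩ (X ∪ Y)) (D ∩ (X ∪ Y)) ∧ B (F ∩ (X ∪ Y)) (D ∩ (X ∪ Y)))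
  rw [h F D hF hD, h' F D hF hD, h (F ∩ (X ∪ Y)) (D ∩ (X ∪ Y)) hF' hD',
    h' (F ∩ (X ∪ Y)) (D ∩ (X ∪ Y)) hF' hD', e1, e1, e2, e2]

theorem Loc2.mono {Z : Finset E} (h : Loc2 S X A) (hXZ : X ⊆ Z) : Loc2 S Z A := by
  intro F D hF hD
  have e1 : ∀ V : Finset E, V ∩ Z ∩ X = V ∩ X := by
    intro V; ext x; simp only [Finset.mem_inter]
    constructor
    · rintro ⟨⟨a, _⟩, b⟩; exact ⟨a, b⟩
    · rintro ⟨a, b⟩; exact ⟨⟨a, hXZ b⟩, b⟩
  rw [h F D hF hD, h (F ∩ Z) (D ∩ Z) (Finset.inter_subset_left.trans hF)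
    (Finset.inter_subset_left.trans hD), e1, e1]

theorem P2_local (hX : X ⊆ S) (hA : Loc2 S X A) : P2 ε S A = P2 ε X A := by
  unfold P2
  have h1 : ∀ F, F ⊆ S → Pr (fun _ => ε) S (A F) = Pr (fun _ => ε) X (A F) := by
    intro F hF
    exact Pr_local hX fun D hD => hA.d hF hD
  rw [Ex_congr h1]
  apply Ex_local hX
  intro F hF
  exact Pr_congr fun D hD => hA.f hF (hD.trans hX)

theorem P2_indep (hX : X ⊆ S) (hY : Y ⊆ S) (hd : Disjoint X Y) (hA : Loc2 S X A)
    (hB : Loc2 S Y B) : P2 ε S (fun F D => A F D ∧ B F D) = P2 ε S A * P2 ε S B := by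
  unfold P2
  rw [← Ex_mul_indep hX hY hd (p := fun _ => 1 / 2) (f := fun F => Pr (fun _ => ε) S (A F))
    (g := fun F => Pr (fun _ => ε) S (B F))]
  · exact Ex_congr fun F hF => Pr_indep hX hY hd (fun D hD => hA.d hF hD)
      (fun D hD => hB.d hF hD)
  · exact fun F hF => Pr_congr fun D hD => hA.f hF hD
  · exact fun F hF => Pr_congr fun D hD => hB.f hF hD

theorem P2_open (ε : ℝ) (S : Finset E) (B : Finset E → Prop) :
    P2 ε S (fun F _ => B F) = Pr (fun _ => 1 / 2) S B := by
  unfold P2 Pr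
  exact Ex_congr fun F _ => Ex_const _ _ _

theorem Ex2_union (ε : ℝ) (S : Finset E) (f : Finset E → ℝ) :
    Ex (fun _ => 1 / 2) S (fun F => Ex (fun _ => ε) S (fun D => f (F ∪ D))) =
      Ex (fun _ => (1 + ε) / 2) S f := by
  induction S using Finset.induction_on generalizing f with
  | empty => simp [Ex_empty]
  | insert a S ha ih =>
    have e1 : ∀ F D : Finset E, F ∪ insert a D = insert a (F ∪ D) := fun F D =>
      Finset.union_insert _ _ _
    have e2 : ∀ F D : Finset E, insert a F ∪ insert a D = insert a (F ∪ D) := by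
      intro F D; ext x; simp only [Finset.mem_union, Finset.mem_insert]; tauto
    have e3 : ∀ F D : Finset E, insert a F ∪ D = insert a (F ∪ D) := fun F D =>
      Finset.insert_union _ _ _
    have h1 : ∀ F : Finset E, Ex (fun _ => ε) (insert a S) (fun D => f (F ∪ D)) =
        (1 - ε) * Ex (fun _ => ε) S (fun D => f (F ∪ D)) +
          ε * Ex (fun _ => ε) S (fun D => f (insert a (F ∪ D))) := by
      intro F
      rw [Ex_insert _ ha]
      simp only [e1]
      ring
    have h2 : ∀ F : Finset E, Ex (fun _ => ε) (insert a S) (fun D => f (insert a F ∪ D)) =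
        Ex (fun _ => ε) S (fun D => f (insert a (F ∪ D))) := by
      intro F
      rw [Ex_insert _ ha]
      simp only [e2, e3]
      ring
    rw [Ex_insert _ ha, Ex_insert _ ha, Ex_congr (fun F _ => h2 F), Ex_congr (fun F _ => h1 F),
      Ex_add, Ex_mul_left, Ex_mul_left, ih f, ih (fun G => f (insert a G))]
    ring

theorem P2_union (ε : ℝ) (S : Finset E) (B : Finset E → Prop) :
    P2 ε S (fun F D => B (F ∪ D)) = Pr (fun _ => (1 + ε) / 2) S B :=
  Ex2_union ε S (fun F => ind (B F))

theorem P2_compl (ε : ℝ) (S : Finset E) (A : Finset E → Finset E → Prop) :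
    P2 ε S (fun F D => A (S \ F) D) = P2 ε S A := by
  have h := Ex_compl (fun _ : E => (1 / 2 : ℝ)) S (fun F => Pr (fun _ => ε) S (A F))
  have e : (fun _ : E => (1:ℝ) - 1 / 2) = fun _ => 1 / 2 := by funext; norm_num
  rw [e] at h
  exact h.symm

theorem P2_map {E' : Type*} [DecidableEq E'] (ε : ℝ) (φ : E ↪ E') (S : Finset E)
    (A : Finset E' → Finset E' → Prop) :
    P2 ε (S.map φ) A = P2 ε S (fun F D => A (F.map φ) (D.map φ)) := by
  unfold P2
  rw [Ex_map]
  exact Ex_congr fun F _ => Pr_map _ _ _ _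

theorem P2_mem (ε : ℝ) {e : E} (he : e ∈ S) : P2 ε S (fun _ D => e ∈ D) = ε := by
  have hl : Loc2 S {e} (fun _ D : Finset E => e ∈ D) := by
    intro F D _ _
    simp
  rw [P2_local (Finset.singleton_subset_iff.mpr he) hl]
  unfold P2 Pr
  have h : ∀ F : Finset E, Ex (fun _ => ε) {e} (fun D => ind (e ∈ D)) = ε := by
    intro F
    have e1 : ({e} : Finset E) = insert e ∅ := rfl
    rw [e1, Ex_insert _ (Finset.notMem_empty e), Ex_empty, Ex_empty,
      ind_not_of (Finset.notMem_empty e), ind_of (Finset.mem_insert_self e ∅)]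
    ring
  rw [Ex_congr (fun F _ => h F), Ex_const]

theorem Adm.self (F D : Finset E) : Adm F D F := fun _ _ => Iff.rfl

theorem Adm.sub {F D G : Finset E} (h : Adm F D G) (hF : F ⊆ S) (hD : D ⊆ S) : G ⊆ S := by
  intro e he
  by_cases h1 : e ∈ D
  · exact hD h1
  · exact hF ((h e h1).mp he)

/-- The configuration which agrees with `G` in `T` and with `F` outside `T`. -/
def mix (T G F : Finset E) : Finset E := (G ∩ T) ∪ (F \ T)

theorem mem_mix {T G F : Finset E} {e : E} : e ∈ mix T G F ↔ (e ∈ T ∧ e ∈ G) ∨ (e ∉ T ∧ e ∈ F) := by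
  unfold mix
  rw [Finset.mem_union, Finset.mem_inter, Finset.mem_sdiff]
  tauto

theorem Adm.mix {F D G : Finset E} (h : Adm F D G) (T : Finset E) : Adm F D (mix T G F) := by
  intro e he
  rw [mem_mix]
  have := h e he
  tauto

theorem AA.mono {A B : Finset E → Prop} (h : ∀ G, A G → B G) {F D : Finset E} (hA : AA A F D) :
    AA B F D := by
  obtain ⟨G, h1, h2⟩ := hA
  exact ⟨G, h1, h G h2⟩

theorem AA_loc {A : Finset E → Prop} (h : ∀ G, A G ↔ A (G ∩ X)) (S : Finset E) :
    Loc2 S X (AA A) := by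
  intro F D _ _
  constructor
  · rintro ⟨G, hG, hA⟩
    refine ⟨G ∩ X, ?_, (h G).mp hA⟩
    intro e he
    rw [Finset.mem_inter, Finset.mem_inter]
    rw [Finset.mem_inter, not_and_or] at he
    rcases he with he | he
    · rw [hG e he]
    · tauto
  · rintro ⟨G, hG, hA⟩
    refine ⟨(G ∩ X) ∪ (F \ X), ?_, ?_⟩
    · intro e he
      rw [Finset.mem_union, Finset.mem_inter, Finset.mem_sdiff]
      have h1 := hG e (fun h1 => he (Finset.mem_inter.mp h1).1)
      rw [Finset.mem_inter] at h1
      tauto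
    · have e1 : ((G ∩ X) ∪ (F \ X)) ∩ X = G ∩ X := by
        ext e
        rw [Finset.mem_inter, Finset.mem_union, Finset.mem_inter, Finset.mem_sdiff]
        tauto
      rw [h, e1, ← h]
      exact hA

theorem open_loc {B : Finset E → Prop} (h : ∀ G, B G ↔ B (G ∩ X)) (S : Finset E) :
    Loc2 S X (fun F _ => B F) := fun F _ _ _ => h F

theorem mem_loc (e : E) (S : Finset E) : Loc2 S {e} (fun _ D : Finset E => e ∈ D) := by
  intro F D _ _
  simp

/-- If the value at an admissible configuration differs from the one at `F`, then some defect is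
pivotal for a configuration which is admissible inside and equal to `F` outside. -/
theorem pivot {β : Type*} {F D G : Finset E} (hF : F ⊆ S) (hD : D ⊆ S) (hG : Adm F D G)
    (o : E → ℕ) (A : Finset E → β) (hne : A G ≠ A F) :
    ∃ e ∈ D, ∃ T, T ⊆ S ∧ e ∉ T ∧ (∀ f ∈ S, o f < o e → f ∈ T) ∧ (∀ f ∈ T, o f ≤ o e) ∧
      A (insert e (mix T G F)) ≠ A ((mix T G F).erase e) := by
  have key : ∀ n : ℕ, ∀ T, T ⊆ S → T.card = n → (∀ f ∈ T, ∀ g ∈ S, o g < o f → g ∈ T) →
      A (mix T G F) ≠ A F → ∃ e ∈ D, ∃ T, T ⊆ S ∧ e ∉ T ∧ (∀ f ∈ S, o f < o e → f ∈ T) ∧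
        (∀ f ∈ T, o f ≤ o e) ∧ A (insert e (mix T G F)) ≠ A ((mix T G F).erase e) := by
    intro n
    induction n with
    | zero =>
      intro T _ hc _ h
      exfalso
      apply h
      rw [Finset.card_eq_zero] at hc
      subst hc
      congr 1
      ext e
      rw [mem_mix]
      simp
    | succ n ih =>
      intro T hT hc hcl h
      have hne : T.Nonempty := by
        rw [← Finset.card_pos]; omega
      obtain ⟨e, he, hmax⟩ := Finset.exists_max_image T o hne
      have hT' : T.erase e ⊆ S := (Finset.erase_subset _ _).trans hT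
      have hc' : (T.erase e).card = n := by
        rw [Finset.card_erase_of_mem he]; omega
      have hcl' : ∀ f ∈ T.erase e, ∀ g ∈ S, o g < o f → g ∈ T.erase e := by
        intro f hf g hg hgf
        rw [Finset.mem_erase] at hf ⊢
        refine ⟨?_, hcl f hf.2 g hg hgf⟩
        rintro rfl
        have := hmax f hf.2
        omega
      have hoff : ∀ x, x ≠ e → (x ∈ mix T G F ↔ x ∈ mix (T.erase e) G F) := by
        intro x hx
        rw [mem_mix, mem_mix, Finset.mem_erase]
        tauto
      by_cases hA : A (mix T G F) = A (mix (T.erase e) G F)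
      · exact ih _ hT' hc' hcl' (by rw [← hA]; exact h)
      have heD : e ∈ D := by
        by_contra heD
        apply hA
        congr 1
        ext x
        by_cases hx : x = e
        · subst hx
          have := hG x heD
          rw [mem_mix, mem_mix, Finset.mem_erase]
          tauto
        · exact hoff x hx
      refine ⟨e, heD, T.erase e, hT', Finset.notMem_erase _ _, ?_, ?_, ?_⟩
      · intro f hf hfe
        rw [Finset.mem_erase]
        refine ⟨?_, hcl e he f hf hfe⟩
        rintro rfl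
        omega
      · intro f hf
        exact hmax f (Finset.mem_erase.mp hf).2
      · intro hcon
        apply hA
        by_cases h1 : e ∈ mix T G F
        · have e1 : mix T G F = insert e (mix (T.erase e) G F) := by
            ext x
            rw [Finset.mem_insert]
            by_cases hx : x = e
            · subst hx; simp [h1]
            · rw [hoff x hx]; tauto
          by_cases h2 : e ∈ mix (T.erase e) G F
          · rw [e1, Finset.insert_eq_self.mpr h2]
          · have e2 : (mix (T.erase e) G F).erase e = mix (T.erase e) G F :=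
              Finset.erase_eq_of_notMem h2
            rw [e1, hcon, e2]
        · have e1 : mix T G F = (mix (T.erase e) G F).erase e := by
            ext x
            rw [Finset.mem_erase]
            by_cases hx : x = e
            · subst hx; simp [h1]
            · rw [hoff x hx]; tauto
          by_cases h2 : e ∈ mix (T.erase e) G F
          · rw [e1, ← hcon, Finset.insert_eq_self.mpr h2]
          · rw [e1, Finset.erase_eq_of_notMem h2]
  apply key S.card S (Finset.Subset.refl _) rfl (fun f _ g hg _ => hg)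
  have e1 : mix S G F = G := by
    ext x
    rw [mem_mix]
    have h1 : x ∈ G → x ∈ S := fun h => hG.sub hF hD h
    have h2 : x ∈ F → x ∈ S := fun h => hF h
    tauto
  rw [e1]
  exact hne

end Q291.AD
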