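import Pool.Agent.Q291.AD.Basic

/-!
The four-arm event with defects: the probability of a pivotal defect.
-/

set_option autoImplicit false
set_option maxHeartbeats 2000000

namespace Q291.AD

open H974 Finset H12S Q291.EP Q291.NL H389NS H984N

section Gen

variable {E : Type*} [DecidableEq E] {S X Y : Finset E} {τ : ℝ}
  {A B : Finset E → Finset E → Prop}

theorem Loc2.inter (h : Loc2 S X A) : Loc2 S (X ∩ S) A := by
  intro F D hF hD
  have e1 : F ∩ (X ∩ S) = F ∩ X := by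
    rw [← Finset.inter_assoc, Finset.inter_eq_left.mpr (Finset.inter_subset_left.trans hF)]
  have e2 : D ∩ (X ∩ S) = D ∩ X := by
    rw [← Finset.inter_assoc, Finset.inter_eq_left.mpr (Finset.inter_subset_left.trans hD)]
  rw [e1, e2]
  exact h F D hF hD

/-- An event in `X` and an event in `Y`. -/
theorem P2_two (h0 : 0 ≤ τ) (h1 : τ ≤ 1) (hd : Disjoint X Y) (hA : Loc2 S X A)
    (hB : Loc2 S Y B) {a : ℝ} (ha : P2 τ S A ≤ a) :
    P2 τ S (fun F D => A F D ∧ B F D) ≤ a * P2 τ S B := by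
  rw [P2_indep Finset.inter_subset_right Finset.inter_subset_right
    (hd.mono Finset.inter_subset_left Finset.inter_subset_left) hA.inter hB.inter]
  exact mul_le_mul_of_nonneg_right ha (P2_nonneg h0 h1 _ _)

theorem true_loc (S X : Finset E) {A : Finset E → Finset E → Prop} (h : ∀ F D, A F D) :
    Loc2 S X A := fun F D _ _ => iff_of_true (h _ _) (h _ _)

end Gen

/-- The four-arm event does not look at the edge itself. -/
theorem A4e_er {k : ℕ} {e : Edg} (G : Finset Edg) :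
    A4e k e (↑G : Set Edg) ↔ A4e k e (↑(G ∩ (ebx e k).erase e) : Set Edg) := by
  rw [A4e_def, A4e_def]
  have : cfe e k (↑G : Set Edg) = cfe e k (↑(G ∩ (ebx e k).erase e) : Set Edg) := by
    unfold cfe
    ext x
    simp only [Set.mem_sdiff, Set.mem_inter_iff, Set.mem_singleton_iff, Finset.mem_coe,
      Finset.mem_inter, Finset.mem_erase]
    tauto
  rw [this]

/-- The four-arm event around `e` for some states of the defects. -/
def A4D (k : ℕ) (e : Edg) : Finset Edg → Finset Edg → Prop := AA (fun G => A4e k e ↑G)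

theorem A4D_loc (k : ℕ) (e : Edg) (S : Finset Edg) : Loc2 S ((ebx e k).erase e) (A4D k e) :=
  AA_loc (fun G => A4e_er G) S

/-- The bound for the four-arm probability with defects at scale `k`. -/
def QF (K τ : ℝ) (k : ℕ) : Prop := ∀ e : Edg,
  P2 τ (ebx e k) (A4D k e) ≤ K * ((k:ℝ) + 1) ^ (-(5/4) : ℝ)

variable {K τ : ℝ} {k : ℕ}

theorem QF.nonneg (h : QF K τ k) (h0 : 0 ≤ τ) (h1 : τ ≤ 1) : 0 ≤ K := by
  have h2 := (P2_nonneg h0 h1 _ _).trans (h (0, 0, true))
  by_contra hK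
  push Not at hK
  have h3 : (0:ℝ) < ((k:ℝ) + 1) ^ (-(5/4) : ℝ) := by positivity
  nlinarith

theorem QF.big (h : QF K τ k) {e : Edg} {S : Finset Edg} (hS : ebx e k ⊆ S) :
    P2 τ S (A4D k e) ≤ K * ((k:ℝ) + 1) ^ (-(5/4) : ℝ) := by
  rw [P2_local hS ((A4D_loc k e S).mono (Finset.erase_subset _ _))]
  exact h e

/-- Some defect `f` is pivotal for the four-arm event around `e` in a configuration which is
admissible near `e` and unperturbed farther away than `f`. -/
def PD (k : ℕ) (e f : Edg) (F D : Finset Edg) : Prop :=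
  f ∈ D ∧ ∃ G, Adm F D G ∧ ∃ T, (∀ g ∈ T, ds e g ≤ ds e f) ∧ PV k e f ↑(mix T G F)

theorem A4a_loc (c : ℤ × ℤ) (d k : ℕ) (G : Finset Edg) :
    A4a c d k (↑G : Set Edg) ↔ A4a c d k (↑(G ∩ (blk c k \ blk c d)) : Set Edg) := by
  have : (↑(G ∩ (blk c k \ blk c d)) : Set Edg) ∩ ↑(blk c k \ blk c d) =
      (↑G : Set Edg) ∩ ↑(blk c k \ blk c d) := by
    rw [Finset.coe_inter, Set.inter_assoc, Set.inter_self]
  unfold A4a
  rw [this]

/-- Far from the boundary of the box. -/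
theorem bulkD {C : ℝ} (hC : ∀ (c : ℤ × ℤ) (d k : ℕ), 1 ≤ d → d ≤ k → ∀ S : Finset Edg,
      blk c k ⊆ S → PQ (1/2) S (fun F => A4a c d k ↑F) ≤ C * ((d:ℝ) / k) ^ (5/4 : ℝ))
    (h0 : 0 ≤ τ) (h1 : τ ≤ 1) (hQF : ∀ j < k, QF K τ j) {e f : Edg}
    (hf : f ∈ ebx e k) (hfe : f ≠ e) (hk : 2 * ds e f + 2 ≤ k) :
    P2 τ (ebx e k) (PD k e f) ≤ τ *
      ((if 4 ≤ ds e f then (K * (((ds e f / 4 : ℕ) : ℝ) + 1) ^ (-(5/4) : ℝ)) ^ 2 else 1) *
        (C * (((2 * ds e f + 2 : ℕ) : ℝ) / k) ^ (5/4 : ℝ))) := by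
  obtain ⟨s, hs⟩ : ∃ s, s = ds e f := ⟨_, rfl⟩
  rw [← hs] at hk ⊢
  obtain ⟨fx, fy⟩ := ds_le.mp (show ds e f ≤ s by omega)
  have fz := ds_ge.mp (show s ≤ ds e f by omega)
  have afx := abs_le.mp fx
  have afy := abs_le.mp fy
  have hfb : f ∈ blk (bp e) (2 * s + 2) := by
    unfold blk bp
    apply mem_of_co <;> simp only <;> omega
  -- the annulus
  have hann : P2 τ (ebx e k) (fun F _ => A4a (bp e) (2 * s + 2) k ↑F) ≤
      C * (((2 * s + 2 : ℕ) : ℝ) / k) ^ (5/4 : ℝ) := by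
    rw [P2_open]
    exact hC (bp e) (2 * s + 2) k (by omega) hk _ (Finset.Subset.refl _)
  have hfann : ∀ F D : Finset Edg, PD k e f F D → A4a (bp e) (2 * s + 2) k (↑F : Set Edg) := by
    rintro F D ⟨-, G, -, T, hT, hP⟩
    have hTd : T ⊆ blk (bp e) (2 * s + 2) := by
      intro g hg
      have h1 := ds_le.mp ((hT g hg).trans hs.symm.le)
      rw [abs_le, abs_le] at h1
      unfold blk bp
      apply mem_of_co <;> simp only <;> omega
    have h2 := pv_ann hP (by omega) hk hfb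
    have h3 : mix T G F \ T = F \ T := by
      ext x
      rw [Finset.mem_sdiff, Finset.mem_sdiff, mem_mix]
      tauto
    rw [← A4a_sdiff hTd, h3, A4a_sdiff hTd] at h2
    exact h2
  have hlann : Loc2 (ebx e k) (blk (bp e) k \ blk (bp e) (2 * s + 2))
      (fun F _ : Finset Edg => A4a (bp e) (2 * s + 2) k ↑F) :=
    open_loc (A4a_loc _ _ _) _
  by_cases h4 : 4 ≤ s
  · rw [if_pos h4]
    obtain ⟨s1, hs1⟩ : ∃ s1, s1 = s / 4 := ⟨_, rfl⟩
    rw [← hs1]
    have hs11 : 1 ≤ s1 := by omega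
    have hs1k : s1 < k := by omega
    have hX1 : ebx e s1 ⊆ ebx e k := by
      unfold ebx
      exact RE_subset (by omega) (by omega) (by omega) (by omega)
    have hX2 : ebx f s1 ⊆ ebx e k := by
      unfold ebx
      exact RE_subset (by omega) (by omega) (by omega) (by omega)
    have hd12 : Disjoint (ebx e s1) (ebx f s1) := by
      rw [Finset.disjoint_left]
      intro g h1 h2
      unfold ebx at h1 h2
      have a1 := mem_co h1
      have a2 := mem_co h2
      rw [le_abs, le_abs] at fz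
      omega
    have hfe1 : f ∉ ebx e s1 := by
      intro h2
      unfold ebx at h2
      have a1 := mem_co h2
      rw [le_abs, le_abs] at fz
      omega
    have hb1 : ebx e s1 ⊆ blk (bp e) (2 * s + 2) := by
      unfold ebx blk bp
      exact RE_subset (by simp only; omega) (by simp only; omega) (by simp only; omega)
        (by simp only; omega)
    have hb2 : ebx f s1 ⊆ blk (bp e) (2 * s + 2) := by
      unfold ebx blk bp
      exact RE_subset (by simp only; omega) (by simp only; omega) (by simp only; omega)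
        (by simp only; omega)
    obtain ⟨A, hA⟩ : ∃ A, A = K * ((s1:ℝ) + 1) ^ (-(5/4) : ℝ) := ⟨_, rfl⟩
    have hA0 : 0 ≤ A := by
      rw [hA]
      have := (hQF s1 hs1k).nonneg h0 h1
      positivity
    rw [← hA]
    have hl1 := (A4D_loc s1 e (ebx e k)).mono (Finset.erase_subset e _)
    have hl2 := A4D_loc s1 f (ebx e k)
    have hl3 := mem_loc f (ebx e k)
    have hP : P2 τ (ebx e k) (PD k e f) ≤ P2 τ (ebx e k) (fun F D => A4D s1 e F D ∧
        (A4D s1 f F D ∧ (f ∈ D ∧ A4a (bp e) (2 * s + 2) k ↑F))) := by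
      apply P2_mono h0 h1
      intro F D _ _ h
      have h' := h
      obtain ⟨hfD, G, hG, T, -, hP⟩ := h
      refine ⟨⟨mix T G F, hG.mix T, pv_e hP hs11 hs1k.le hfe1⟩,
        ⟨mix T G F, hG.mix T, pv_f hf hfe hP hs11 ?_ ?_ ?_⟩, hfD, hfann F D h'⟩
      · omega
      · omega
      · rcases fz with h | h
        · left; omega
        · right; omega
    have hs3 : Disjoint ({f} : Finset Edg) (blk (bp e) k \ blk (bp e) (2 * s + 2)) := by
      rw [Finset.disjoint_singleton_left, Finset.mem_sdiff]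
      exact fun h => h.2 hfb
    have hs2 : Disjoint ((ebx f s1).erase f) ({f} ∪ (blk (bp e) k \ blk (bp e) (2 * s + 2))) := by
      rw [Finset.disjoint_union_right]
      refine ⟨Finset.disjoint_singleton_right.mpr (Finset.notMem_erase _ _), ?_⟩
      exact (Finset.disjoint_sdiff.mono_left hb2).mono_left (Finset.erase_subset _ _)
    have hs1 : Disjoint (ebx e s1) ((ebx f s1).erase f ∪
        ({f} ∪ (blk (bp e) k \ blk (bp e) (2 * s + 2)))) := by
      rw [Finset.disjoint_union_right, Finset.disjoint_union_right]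
      refine ⟨hd12.mono_right (Finset.erase_subset _ _),
        Finset.disjoint_singleton_right.mpr hfe1, Finset.disjoint_sdiff.mono_left hb1⟩
    have b1 := P2_two h0 h1 hs1 hl1 (hl2.and (hl3.and hlann)) (a := A)
      (by rw [hA]; exact (hQF s1 hs1k).big hX1)
    have b2 := P2_two h0 h1 hs2 hl2 (hl3.and hlann) (a := A)
      (by rw [hA]; exact (hQF s1 hs1k).big hX2)
    have b3 := P2_two h0 h1 hs3 hl3 hlann (a := τ) (P2_mem τ hf).le
    calc P2 τ (ebx e k) (PD k e f)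
        ≤ A * P2 τ (ebx e k) (fun F D => A4D s1 f F D ∧
          (f ∈ D ∧ A4a (bp e) (2 * s + 2) k ↑F)) := hP.trans b1
      _ ≤ A * (A * P2 τ (ebx e k) (fun F D => f ∈ D ∧ A4a (bp e) (2 * s + 2) k ↑F)) :=
          mul_le_mul_of_nonneg_left b2 hA0
      _ ≤ A * (A * (τ * P2 τ (ebx e k) (fun F _ => A4a (bp e) (2 * s + 2) k ↑F))) := by gcongr
      _ ≤ A * (A * (τ * (C * (((2 * s + 2 : ℕ) : ℝ) / k) ^ (5/4 : ℝ)))) := by gcongr
      _ = _ := by ring
  · rw [if_neg h4, one_mul]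
    have hs3 : Disjoint ({f} : Finset Edg) (blk (bp e) k \ blk (bp e) (2 * s + 2)) := by
      rw [Finset.disjoint_singleton_left, Finset.mem_sdiff]
      exact fun h => h.2 hfb
    have b3 := P2_two h0 h1 hs3 (mem_loc f (ebx e k)) hlann (a := τ) (P2_mem τ hf).le
    refine (P2_mono h0 h1 (fun F D _ _ h => ⟨h.1, hfann F D h⟩)).trans (b3.trans ?_)
    exact mul_le_mul_of_nonneg_left hann h0

/-- The crossing event, locally. -/
theorem Cr_loc {z : Vtx} {r R : ℕ} (hr : r ≤ R) (G : Finset Edg) :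
    Cr z r R (↑G : Set Edg) ↔ Cr z r R (↑(G ∩ (bx z R \ bx z r)) : Set Edg) := by
  constructor
  · intro h
    refine (h.loc hr).mono ?_
    rw [Finset.coe_inter, Finset.coe_sdiff]
  · intro h
    exact h.mono (by exact_mod_cast Finset.inter_subset_left)

theorem union_loc {X : Finset Edg} {B : Finset Edg → Prop} (h : ∀ G, B G ↔ B (G ∩ X))
    (S : Finset Edg) : Loc2 S X (fun F D => B (F ∪ D)) := by
  intro F D _ _
  show B (F ∪ D) ↔ B (F ∩ X ∪ D ∩ X)
  rw [h, Finset.union_inter_distrib_right]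

theorem Adm.le {F D G : Finset Edg} (h : Adm F D G) : G ⊆ F ∪ D := by
  intro e he
  rw [Finset.mem_union]
  by_cases h1 : e ∈ D
  · exact Or.inr h1
  · exact Or.inl ((h e h1).mp he)

/-- Half-plane crossings with defects. -/
theorem cr_def {C ε : ℝ} (hC : ∀ a s : Bool, Sta C ε a s) (h0 : 0 ≤ τ) (h1 : τ ≤ 1)
    {T : Finset Edg} {z : Vtx} {a b : Bool} {X : ℤ}
    (hT : ∀ g ∈ T, hpl a b X (src g) ∧ hpl a b X (tgt g))
    (hz : |co a z - X| ≤ 1) {n : ℕ} (hη : τ ≤ ε * (n:ℝ) ^ (-(3/4) : ℝ))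
    {r0 R0 : ℕ} (hr1 : 1 ≤ r0) (hr2 : r0 ≤ R0) (hr3 : R0 ≤ n) :
    P2 τ T (fun F D => Cr z r0 R0 ↑(F ∪ D)) ≤ C * ((r0:ℝ) / R0) ^ (7/24 : ℝ) := by
  rw [P2_union τ T (fun G => Cr z r0 R0 ↑G)]
  refine hC a b T z X hT hz n _ (by linarith) (by linarith) ?_ r0 R0 hr1 hr2 hr3
  have e1 : (1 + τ) / 2 - 1 / 2 = τ / 2 := by ring
  rw [e1, abs_of_nonneg (by linarith)]
  linarith

/-- Positions of the boxes. -/
theorem geo {e f : Edg} {z : Vtx} {k s t k1 t1 : ℕ} (hs : ds e f = s) (ht : t + s = k)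
    (hk1 : k1 = k / 16) (ht1 : t1 = min t k1) (hk : k < 2 * s + 2) (hk64 : 64 ≤ k)
    (zf : sd (src f) z ≤ t) (ze : (k:ℤ) ≤ sd (src e) z) :
    Disjoint (ebx e k1) (ebx f t1) ∧ f ∉ ebx e k1 ∧ Disjoint (ebx e k1) (bx z (k / 4)) ∧
      f ∈ bx z (2 * t + 2) ∧ ebx f t1 ⊆ bx z (2 * t + 2) := by
  have fz := ds_ge.mp (show s ≤ ds e f by omega)
  have hsrcf : src f = (f.1, f.2.1) := rfl
  have hsrce : src e = (e.1, e.2.1) := rfl
  rw [hsrcf] at zf
  rw [hsrce] at ze
  unfold sd at zf ze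
  simp only at zf ze
  rw [max_le_iff, abs_le, abs_le] at zf
  refine ⟨?_, ?_, ?_, ?_, ?_⟩
  · clear zf ze
    rw [Finset.disjoint_left]
    intro g h1 h2
    unfold ebx at h1 h2
    have a1 := mem_co h1
    have a2 := mem_co h2
    clear h1 h2
    rw [le_abs, le_abs] at fz
    omega
  · clear zf ze
    intro h2
    unfold ebx at h2
    have a1 := mem_co h2
    clear h2
    rw [le_abs, le_abs] at fz
    omega
  · clear zf fz
    rw [Finset.disjoint_left]
    intro g h1 h2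
    unfold ebx at h1
    unfold bx at h2
    have a1 := mem_co h1
    have a2 := mem_co h2
    clear h1 h2
    rw [le_max_iff, le_abs, le_abs] at ze
    omega
  · clear ze fz
    unfold bx
    push_cast
    apply mem_of_co <;> omega
  · clear ze fz
    unfold ebx bx
    push_cast
    exact RE_subset (by omega) (by omega) (by omega) (by omega)

/-- Near the boundary of the box. -/
theorem bdryD {C ε : ℝ} (hC : ∀ a s : Bool, Sta C ε a s) (h0 : 0 ≤ τ) (h1 : τ ≤ 1)
    (hQF : ∀ j < k, QF K τ j) {e f : Edg} (hf : f ∈ ebx e k) (hfe : f ≠ e)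
    {s t k1 t1 : ℕ} (hs : ds e f = s) (ht : t + s = k) (hk1 : k1 = k / 16) (ht1 : t1 = min t k1)
    (hk : k < 2 * s + 2) (hk64 : 64 ≤ k) (hη : τ ≤ ε * (k:ℝ) ^ (-(3/4) : ℝ)) :
    P2 τ (ebx e k) (PD k e f) ≤ τ * ((K * ((k1:ℝ) + 1) ^ (-(5/4) : ℝ)) *
      ((if 1 ≤ t1 then K * ((t1:ℝ) + 1) ^ (-(5/4) : ℝ) else 1) *
      (if 2 * t + 2 ≤ k / 4 then
        C * (((2 * t + 2 : ℕ) : ℝ) / ((k / 4 : ℕ) : ℝ)) ^ (7/24 : ℝ) else 1))) := by
  obtain ⟨fx, fy⟩ := ds_le.mp (show ds e f ≤ s by omega)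
  have fz := ds_ge.mp (show s ≤ ds e f by omega)
  have afx := abs_le.mp fx
  have afy := abs_le.mp fy
  have hk1k : k1 < k := by omega
  have ht1k : t1 < k := by omega
  obtain ⟨zf, ze⟩ := zz_spec hs ht
  obtain ⟨a, b, X, hhp, hX⟩ := zz_half e f k s
  obtain ⟨z, hz⟩ : ∃ z, z = zz e f k s := ⟨_, rfl⟩
  rw [← hz] at zf ze hX
  -- the crossing
  obtain ⟨W, hW⟩ : ∃ W : Finset Edg, W = if 2 * t + 2 ≤ k / 4 then
    bx z (k / 4) \ bx z (2 * t + 2) else ∅ := ⟨_, rfl⟩
  obtain ⟨Dc, hDc⟩ : ∃ Dc : Finset Edg → Finset Edg → Prop, Dc = fun F D : Finset Edg =>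
    2 * t + 2 ≤ k / 4 → Cr z (2 * t + 2) (k / 4) (↑(F ∪ D) : Set Edg) := ⟨_, rfl⟩
  have hDloc : Loc2 (ebx e k) W Dc := by
    rw [hDc, hW]
    by_cases hc : 2 * t + 2 ≤ k / 4
    · rw [if_pos hc]
      have h2 := union_loc (B := fun G : Finset Edg => Cr z (2 * t + 2) (k / 4) (↑G : Set Edg))
        (fun G => Cr_loc hc G) (ebx e k)
      intro F D hF hD
      constructor
      · intro h3 h4
        exact (h2 F D hF hD).mp (h3 h4)
      · intro h3 h4
        exact (h2 F D hF hD).mpr (h3 h4)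
    · exact true_loc _ _ (fun _ _ h3 => absurd h3 hc)
  have hDpr : P2 τ (ebx e k) Dc ≤ (if 2 * t + 2 ≤ k / 4 then
        C * (((2 * t + 2 : ℕ) : ℝ) / ((k / 4 : ℕ) : ℝ)) ^ (7/24 : ℝ) else 1) := by
    split_ifs with hc
    · have c1 : P2 τ (ebx e k) Dc ≤ P2 τ (ebx e k)
          (fun F D => Cr z (2 * t + 2) (k / 4) (↑(F ∪ D) : Set Edg)) := by
        apply P2_mono h0 h1
        intro F D _ _ h
        rw [hDc] at h
        exact h hc
      have c2 := cr_def hC h0 h1 (T := ebx e k) hhp hX (n := k) hη (r0 := 2 * t + 2)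
        (R0 := k / 4) (by omega) hc (by omega)
      exact c1.trans c2
    · exact P2_le_one h0 h1 _ _
  have hX1 : ebx e k1 ⊆ ebx e k := by
    unfold ebx
    exact RE_subset (by omega) (by omega) (by omega) (by omega)
  have hX2 : ebx f t1 ⊆ ebx e k := by
    unfold ebx
    exact RE_subset (by omega) (by omega) (by omega) (by omega)
  obtain ⟨hd12, hfe1, hd1, hfz, hd2⟩ := geo hs ht hk1 ht1 hk hk64 zf ze
  have hW1 : Disjoint (ebx e k1) W := by
    rw [hW]
    split_ifs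
    · exact hd1.mono_right Finset.sdiff_subset
    · exact Finset.disjoint_empty_right _
  have hW2 : Disjoint (ebx f t1) W := by
    rw [hW]
    split_ifs
    · exact Finset.disjoint_sdiff.mono_left hd2
    · exact Finset.disjoint_empty_right _
  have hW3 : Disjoint ({f} : Finset Edg) W := by
    rw [Finset.disjoint_singleton_left, hW]
    split_ifs
    · rw [Finset.mem_sdiff]
      exact fun h => h.2 hfz
    · exact Finset.notMem_empty _
  obtain ⟨A, hA⟩ : ∃ A, A = K * ((k1:ℝ) + 1) ^ (-(5/4) : ℝ) := ⟨_, rfl⟩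
  have hA0 : 0 ≤ A := by
    rw [hA]
    have := (hQF k1 hk1k).nonneg h0 h1
    positivity
  rw [← hA]
  obtain ⟨A', hA'⟩ : ∃ A', A' = (if 1 ≤ t1 then K * ((t1:ℝ) + 1) ^ (-(5/4) : ℝ) else 1) :=
    ⟨_, rfl⟩
  have hA'0 : 0 ≤ A' := by
    rw [hA']
    have := (hQF t1 ht1k).nonneg h0 h1
    split_ifs
    · positivity
    · norm_num
  rw [← hA']
  obtain ⟨B2, hB2⟩ : ∃ B2 : Finset Edg → Finset Edg → Prop, B2 = fun F D : Finset Edg =>
    1 ≤ t1 → A4D t1 f F D := ⟨_, rfl⟩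
  have hl1 := (A4D_loc k1 e (ebx e k)).mono (Finset.erase_subset e _)
  have hl2 : Loc2 (ebx e k) ((ebx f t1).erase f) B2 := by
    rw [hB2]
    intro F D hF hD
    have h2 := A4D_loc t1 f (ebx e k) F D hF hD
    constructor
    · intro h3 h4; exact h2.mp (h3 h4)
    · intro h3 h4; exact h2.mpr (h3 h4)
  have hl3 := mem_loc f (ebx e k)
  have hP : P2 τ (ebx e k) (PD k e f) ≤ P2 τ (ebx e k) (fun F D => A4D k1 e F D ∧
      (B2 F D ∧ (f ∈ D ∧ Dc F D))) := by
    apply P2_mono h0 h1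
    rintro F D _ _ ⟨hfD, G, hG, T, -, hP⟩
    refine ⟨⟨mix T G F, hG.mix T, pv_e hP (by omega) hk1k.le hfe1⟩, ?_, hfD, ?_⟩
    · rw [hB2]
      intro ht1'
      refine ⟨mix T G F, hG.mix T, pv_f hf hfe hP ht1' ?_ ?_ ?_⟩
      · omega
      · omega
      · rcases fz with h | h
        · left; omega
        · right; omega
    · rw [hDc]
      intro h2
      have h3 := pv_cr (z := z) (r := 2 * t + 2) (R := k / 4) hf hfe hP (by push_cast; omega)
        (by omega)
      refine h3.mono (Set.inter_subset_left.trans ?_)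
      exact_mod_cast (hG.mix T).le
  have hs2 : Disjoint ((ebx f t1).erase f) ({f} ∪ W) := by
    rw [Finset.disjoint_union_right]
    exact ⟨Finset.disjoint_singleton_right.mpr (Finset.notMem_erase _ _),
      hW2.mono_left (Finset.erase_subset _ _)⟩
  have hs1 : Disjoint (ebx e k1) ((ebx f t1).erase f ∪ ({f} ∪ W)) := by
    rw [Finset.disjoint_union_right, Finset.disjoint_union_right]
    exact ⟨hd12.mono_right (Finset.erase_subset _ _), Finset.disjoint_singleton_right.mpr hfe1, hW1⟩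
  have b1 := P2_two h0 h1 hs1 hl1 (hl2.and (hl3.and hDloc)) (a := A)
    (by rw [hA]; exact (hQF k1 hk1k).big hX1)
  have b2 := P2_two h0 h1 hs2 hl2 (hl3.and hDloc) (a := A') (by
    rw [hA', hB2]
    split_ifs with ht1'
    · exact (P2_mono h0 h1 (fun F D _ _ h => h ht1')).trans ((hQF t1 ht1k).big hX2)
    · exact P2_le_one h0 h1 _ _)
  have b3 := P2_two h0 h1 hW3 hl3 hDloc (a := τ) (P2_mem τ hf).le
  calc P2 τ (ebx e k) (PD k e f)
      ≤ A * P2 τ (ebx e k) (fun F D => B2 F D ∧ (f ∈ D ∧ Dc F D)) := hP.trans b1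
    _ ≤ A * (A' * P2 τ (ebx e k) (fun F D => f ∈ D ∧ Dc F D)) :=
        mul_le_mul_of_nonneg_left b2 hA0
    _ ≤ A * (A' * (τ * P2 τ (ebx e k) Dc)) := by gcongr
    _ ≤ A * (A' * (τ * (if 2 * t + 2 ≤ k / 4 then
        C * (((2 * t + 2 : ℕ) : ℝ) / ((k / 4 : ℕ) : ℝ)) ^ (7/24 : ℝ) else 1))) := by gcongr
    _ = _ := by ring

end Q291.AD
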