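import Pool.Agent.Q291.AD.Stab
import Pool.Agent.Q291.FK.Crv

/-!
Stability of the exploration path, as a curve, under adversarial defects.
-/

set_option autoImplicit false
set_option maxHeartbeats 2000000

namespace Q291.AD

open H974 Finset H342P H984P H984N Q291.EP

/-- Some admissible configuration has a curve at distance more than `ρ`. -/
def Far (R : Rect) (δ ρ : ℝ) (F Q : Finset Edg) : Prop :=
  ∃ G, Adm F Q G ∧ ¬ Fr (R.curve δ G) (R.curve δ F) ρ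

theorem Fr.mono' {f g : C(unitInterval, ℂ)} {ρ ρ' : ℝ} (h : Fr f g ρ) (hρ : ρ ≤ ρ') :
    Fr f g ρ' := by
  obtain ⟨φ, hφ⟩ := h
  exact ⟨φ, fun t => (hφ t).trans hρ⟩

/-- For a given mesh of the grid. -/
theorem grid_def {C : ℝ} (hC : 1 ≤ C) (hcs : ∀ (D : Dm) (n w : ℕ), D.Ok → 1 ≤ w → w ≤ n →
    D.r - D.l ≤ n → D.h + 1 ≤ n → 8 * (w:ℤ) ≤ -D.l → 8 * (w:ℤ) ≤ D.r → 8 * (w:ℤ) ≤ D.h →
    ∀ τ : ℝ, 0 ≤ τ → τ ≤ 1 →
      P2 τ D.edges (fun F Q => ∃ G, Adm F Q G ∧ cp D w G ≠ cp D w F) ≤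
        C * ((n:ℝ) ^ (3/4 : ℝ) * ((n:ℝ) / w) ^ (31/24 : ℝ)) * τ) (R : Rect)
    {κ S δ ρ : ℝ} (hκ : 0 < κ) (hS : 0 < S) (hδ : 0 < δ) (hsh : (R.dm δ).Shape κ (S / δ))
    (hδS : δ ≤ S) (hρδ : 8 * δ ≤ ρ) (hρ : ρ ≤ κ * S) {τ : ℝ} (h0 : 0 ≤ τ) (h1 : τ ≤ 1) :
    P2 τ (R.dm δ).edges (Far R δ ρ) ≤
      C * (48 * S) ^ (49/24 : ℝ) * (τ * δ ^ (-(3/4) : ℝ) * ρ ^ (-(31/24) : ℝ)) := by
  classical
  have hρ0 : 0 < ρ := lt_of_lt_of_le (by positivity) hρδ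
  obtain ⟨D, hD⟩ : ∃ D : Dm, D = R.dm δ := ⟨_, rfl⟩
  rw [← hD] at hsh
  have hSδ : 1 ≤ S / δ := by rw [le_div_iff₀ hδ]; linarith
  have hρδ' : 1 ≤ ρ / (8 * δ) := by rw [le_div_iff₀ (by positivity)]; linarith
  obtain ⟨n, hn⟩ : ∃ n : ℕ, n = ⌈S / δ⌉₊ + 1 := ⟨_, rfl⟩
  obtain ⟨w, hw⟩ : ∃ w : ℕ, w = ⌊ρ / (8 * δ)⌋₊ := ⟨_, rfl⟩
  have n1 : S / δ + 1 ≤ n := by
    rw [hn]; push_cast
    linarith [Nat.le_ceil (S / δ)]
  have n2 : (n:ℝ) ≤ 3 * S / δ := by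
    rw [hn]; push_cast
    have := Nat.ceil_lt_add_one (show 0 ≤ S / δ by positivity)
    have e : 3 * S / δ = 3 * (S / δ) := by ring
    rw [e]
    linarith
  have w1 : (w:ℝ) ≤ ρ / (8 * δ) := by rw [hw]; exact Nat.floor_le (by positivity)
  have w3 : ρ / (8 * δ) < w + 1 := by rw [hw]; exact Nat.lt_floor_add_one _
  have hw1 : 1 ≤ w := by rw [hw]; exact (Nat.one_le_floor_iff _).mpr hρδ'
  have hw1' : (1:ℝ) ≤ w := by exact_mod_cast hw1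
  have w2 : ρ / (16 * δ) ≤ w := by
    have e : ρ / (8 * δ) = 2 * (ρ / (16 * δ)) := by field_simp; ring
    rw [e] at w3 hρδ'
    linarith
  have hn0 : (0:ℝ) < n := by linarith
  have hw0 : (0:ℝ) < w := by linarith
  have h8 : 8 * (w:ℝ) ≤ κ * (S / δ) := by
    have e1 : 8 * (ρ / (8 * δ)) = ρ / δ := by field_simp
    have e2 : ρ / δ ≤ κ * S / δ := div_le_div_of_nonneg_right hρ hδ.le
    have e3 : κ * (S / δ) = κ * S / δ := by ring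
    rw [e3]
    linarith
  have c1 : 8 * (w:ℤ) ≤ -D.l := by
    have := h8.trans hsh.l_ge
    exact_mod_cast this
  have c2 : 8 * (w:ℤ) ≤ D.r := by
    have := h8.trans hsh.r_ge
    exact_mod_cast this
  have c3 : 8 * (w:ℤ) ≤ D.h := by
    have := h8.trans hsh.h_ge
    exact_mod_cast this
  have c4 : D.r - D.l ≤ n := by
    have : ((D.r - D.l : ℤ) : ℝ) ≤ n := hsh.w_le.trans (by linarith)
    exact_mod_cast this
  have c5 : D.h + 1 ≤ n := by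
    have : ((D.h + 1 : ℤ) : ℝ) ≤ n := by
      push_cast
      linarith [hsh.h_le]
    exact_mod_cast this
  have c6 : w ≤ n := by
    have : (w:ℤ) ≤ n := by omega
    exact_mod_cast this
  have a3 := hcs D n w hsh.ok hw1 c6 c4 c5 c1 c2 c3 τ h0 h1
  have hmono : P2 τ (R.dm δ).edges (Far R δ ρ) ≤
      P2 τ D.edges (fun F Q => ∃ G, Adm F Q G ∧ cp D w G ≠ cp D w F) := by
    rw [← hD]
    refine P2_mono h0 h1 ?_
    rintro F Q hF hQ ⟨G, hG, hne⟩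
    refine ⟨G, hG, fun hc => hne ?_⟩
    have hGS : G ⊆ D.edges := hG.sub hF hQ
    have hcl := cp_close R hδ.le (by rw [← hD]; exact hsh.ok) (by omega : 0 < w)
      (G := G) (G' := F) (by rw [← hD]; exact hGS) (by rw [← hD]; exact hF)
      (by rw [← hD]; exact hc)
    refine Fr.mono' hcl ?_
    have e1 : δ * (6 * w + 2) ≤ δ * (8 * (ρ / (8 * δ))) :=
      mul_le_mul_of_nonneg_left (by linarith) hδ.le
    have e2 : δ * (8 * (ρ / (8 * δ))) = ρ := by field_simp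
    linarith
  refine hmono.trans (a3.trans ?_)
  have hb : (n:ℝ) ^ (3/4 : ℝ) * ((n:ℝ) / w) ^ (31/24 : ℝ) ≤
      (48 * S) ^ (49/24 : ℝ) * (δ ^ (-(3/4) : ℝ) * ρ ^ (-(31/24) : ℝ)) := by
    have b1 : (n:ℝ) ^ (3/4 : ℝ) ≤ (48 * S) ^ (3/4 : ℝ) * δ ^ (-(3/4) : ℝ) := by
      have b0 : (n:ℝ) ≤ 48 * S / δ := n2.trans (div_le_div_of_nonneg_right (by linarith) hδ.le)
      refine (Real.rpow_le_rpow hn0.le b0 (by norm_num)).trans (le_of_eq ?_)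
      rw [Real.div_rpow (by positivity) hδ.le, Real.rpow_neg hδ.le, div_eq_mul_inv]
    have b2 : ((n:ℝ) / w) ^ (31/24 : ℝ) ≤ (48 * S) ^ (31/24 : ℝ) * ρ ^ (-(31/24) : ℝ) := by
      have b3 : (n:ℝ) / w ≤ 48 * S / ρ := by
        rw [div_le_div_iff₀ hw0 hρ0]
        have e1 : (n:ℝ) * ρ ≤ 3 * S / δ * ρ := mul_le_mul_of_nonneg_right n2 hρ0.le
        have e2 : 3 * S / δ * ρ = 48 * S * (ρ / (16 * δ)) := by field_simp; ring
        have e3 : 48 * S * (ρ / (16 * δ)) ≤ 48 * S * w := mul_le_mul_of_nonneg_left w2 (by positivity)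
        linarith
      refine (Real.rpow_le_rpow (by positivity) b3 (by norm_num)).trans (le_of_eq ?_)
      rw [Real.div_rpow (by positivity) hρ0.le, Real.rpow_neg hρ0.le, div_eq_mul_inv]
    have b4 : (48 * S) ^ (3/4 : ℝ) * (48 * S) ^ (31/24 : ℝ) = (48 * S) ^ (49/24 : ℝ) := by
      rw [← Real.rpow_add (by positivity)]; norm_num
    calc (n:ℝ) ^ (3/4 : ℝ) * ((n:ℝ) / w) ^ (31/24 : ℝ)
        ≤ ((48 * S) ^ (3/4 : ℝ) * δ ^ (-(3/4) : ℝ)) * ((48 * S) ^ (31/24 : ℝ) *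
          ρ ^ (-(31/24) : ℝ)) := mul_le_mul b1 b2 (by positivity) (by positivity)
      _ = ((48 * S) ^ (3/4 : ℝ) * (48 * S) ^ (31/24 : ℝ)) *
          (δ ^ (-(3/4) : ℝ) * ρ ^ (-(31/24) : ℝ)) := by ring
      _ = _ := by rw [b4]
  calc C * ((n:ℝ) ^ (3/4 : ℝ) * ((n:ℝ) / w) ^ (31/24 : ℝ)) * τ
      ≤ C * ((48 * S) ^ (49/24 : ℝ) * (δ ^ (-(3/4) : ℝ) * ρ ^ (-(31/24) : ℝ))) * τ :=
        mul_le_mul_of_nonneg_right (mul_le_mul_of_nonneg_left hb (by linarith)) h0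
    _ = _ := by ring

/-- **Stability of the curve under adversarial defects.** -/
theorem curve_def (R : Rect) : ∃ C δ0 : ℝ, 0 < C ∧ 0 < δ0 ∧ ∀ δ : ℝ, 0 < δ → δ ≤ δ0 →
    ∀ ρ : ℝ, 8 * δ ≤ ρ → ρ ≤ 1 → ∀ τ : ℝ, 0 ≤ τ → τ ≤ 1 →
      P2 τ (R.dm δ).edges (Far R δ ρ) ≤ C * (τ * δ ^ (-(3/4) : ℝ) * ρ ^ (-(31/24) : ℝ)) := by
  obtain ⟨C, hC, hcs⟩ := coarse_def
  obtain ⟨κ, S, δ1, hκ, hS, hδ1, -, hsh⟩ := R.shape
  obtain ⟨C', hC'⟩ : ∃ C' : ℝ, C' = C * (48 * S) ^ (49/24 : ℝ) := ⟨_, rfl⟩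
  have hC'0 : 0 < C' := by rw [hC']; positivity
  have hκS : 0 < κ * S := by positivity
  refine ⟨C' * (1 + (κ * S) ^ (-(31/24) : ℝ)), min δ1 (min S (κ * S / 8)), by positivity,
    lt_min hδ1 (lt_min hS (by positivity)), ?_⟩
  intro δ hδ hδ0 ρ hρ hρ1 τ h0 h1
  have d1 : δ ≤ δ1 := hδ0.trans (min_le_left _ _)
  have d2 : δ ≤ S := hδ0.trans ((min_le_right _ _).trans (min_le_left _ _))
  have d3 : δ ≤ κ * S / 8 := hδ0.trans ((min_le_right _ _).trans (min_le_right _ _))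
  have hρ0 : 0 < ρ := lt_of_lt_of_le (by positivity) hρ
  have hx : 0 ≤ τ * δ ^ (-(3/4) : ℝ) := by positivity
  have hpk : 0 < (κ * S) ^ (-(31/24) : ℝ) := by positivity
  rcases le_or_gt ρ (κ * S) with hc | hc
  · have e1 := grid_def hC hcs R hκ hS hδ (hsh δ hδ d1) d2 hρ hc h0 h1
    rw [← hC'] at e1
    refine e1.trans ?_
    apply mul_le_mul_of_nonneg_right _ (by positivity)
    nlinarith
  · have e1 := grid_def hC hcs R hκ hS hδ (hsh δ hδ d1) d2 (ρ := κ * S) (by linarith) le_rfl h0 h1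
    rw [← hC'] at e1
    have e2 : P2 τ (R.dm δ).edges (Far R δ ρ) ≤ P2 τ (R.dm δ).edges (Far R δ (κ * S)) := by
      refine P2_mono h0 h1 ?_
      rintro F Q _ _ ⟨G, hG, hne⟩
      exact ⟨G, hG, fun hc' => hne (Fr.mono' hc' hc.le)⟩
    refine e2.trans (e1.trans ?_)
    have e3 : 1 ≤ ρ ^ (-(31/24) : ℝ) :=
      Real.one_le_rpow_of_pos_of_le_one_of_nonpos hρ0 hρ1 (by norm_num)
    have e4 : (κ * S) ^ (-(31/24) : ℝ) ≤
        (1 + (κ * S) ^ (-(31/24) : ℝ)) * ρ ^ (-(31/24) : ℝ) := by nlinarith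
    calc C' * (τ * δ ^ (-(3/4) : ℝ) * (κ * S) ^ (-(31/24) : ℝ))
        = (C' * (τ * δ ^ (-(3/4) : ℝ))) * (κ * S) ^ (-(31/24) : ℝ) := by ring
      _ ≤ (C' * (τ * δ ^ (-(3/4) : ℝ))) *
          ((1 + (κ * S) ^ (-(31/24) : ℝ)) * ρ ^ (-(31/24) : ℝ)) :=
          mul_le_mul_of_nonneg_left e4 (by positivity)
      _ = _ := by ring

end Q291.AD
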