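import Pool.Agent.Q291.AD.Four

/-!
The four-arm probability with defects: the recursion, and both bounds.
-/

set_option autoImplicit false
set_option maxHeartbeats 2000000

namespace Q291.AD

open H974 Finset H12S Q291.EP Q291.NL H389NS H984N TH291.NW

section Gen

variable {E : Type*} [DecidableEq E] {S X : Finset E} {A : Finset E → Finset E → Prop}

theorem Loc2.not (h : Loc2 S X A) : Loc2 S X (fun F D => ¬ A F D) :=
  fun F D hF hD => not_congr (h F D hF hD)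

end Gen

/-- The defects can change whether the four-arm event happens. -/
def Chg (k : ℕ) (e : Edg) (F D : Finset Edg) : Prop :=
  ∃ G, Adm F D G ∧ ¬ (A4e k e (↑G : Set Edg) ↔ A4e k e (↑F : Set Edg))

/-- The four-arm event happens for all states of the defects. -/
def R4 (k : ℕ) (e : Edg) (F D : Finset Edg) : Prop := ∀ G, Adm F D G → A4e k e (↑G : Set Edg)

theorem R4_loc (k : ℕ) (e : Edg) (S : Finset Edg) : Loc2 S (ebx e k) (R4 k e) := by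
  have h := ((AA_loc (A := fun G : Finset Edg => ¬ A4e k e (↑G : Set Edg))
    (fun G => not_congr (A4e_er G)) S).mono (Finset.erase_subset e (ebx e k))).not
  intro F D hF hD
  have h1 := h F D hF hD
  unfold AA at h1
  unfold R4
  push Not at h1
  exact h1

theorem chg_le {K C1 C2 ε τ : ℝ} (hK : 1 ≤ K) (hC1 : 1 ≤ C1) (hC2 : 1 ≤ C2)
    (hA : ∀ (c : ℤ × ℤ) (d k : ℕ), 1 ≤ d → d ≤ k → ∀ S : Finset Edg,
      blk c k ⊆ S → PQ (1/2) S (fun F => A4a c d k ↑F) ≤ C1 * ((d:ℝ) / k) ^ (5/4 : ℝ))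
    (hS : ∀ a s : Bool, Sta C2 ε a s) (h0 : 0 ≤ τ) (h1 : τ ≤ 1) {k : ℕ} (hk64 : 64 ≤ k)
    (hη : τ ≤ ε * (k:ℝ) ^ (-(3/4) : ℝ)) (hQF : ∀ j < k, QF K τ j) (e : Edg) :
    P2 τ (ebx e k) (Chg k e) ≤
      τ * ((4608 * C1 + 6291456 * C2) * K ^ 2 * (k:ℝ) ^ (-(1/2) : ℝ)) := by
  have hstep : P2 τ (ebx e k) (Chg k e) ≤
      P2 τ (ebx e k) (fun F D => ∃ f ∈ (ebx e k).erase e, PD k e f F D) := by
    apply P2_mono h0 h1
    rintro F D hF hD ⟨G, hG, hne⟩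
    obtain ⟨f, hfD, T, hT, hfT, -, hTo, hP⟩ := pivot hF hD hG (ds e)
      (fun G : Finset Edg => A4e k e (↑G : Set Edg)) (fun h => hne (iff_of_eq h))
    have hfe : f ≠ e := by
      rintro rfl
      apply hP
      apply propext
      rw [A4e_er, A4e_er ((mix T G F).erase f)]
      have : insert f (mix T G F) ∩ (ebx f k).erase f = (mix T G F).erase f ∩ (ebx f k).erase f := by
        ext x
        simp only [Finset.mem_inter, Finset.mem_insert, Finset.mem_erase]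
        tauto
      rw [this]
    refine ⟨f, Finset.mem_erase.mpr ⟨hfe, hD hfD⟩, hfD, G, hG, T, hTo, ?_⟩
    unfold PV
    rw [← Finset.coe_insert, ← Finset.coe_erase]
    exact fun h => hP (propext h)
  refine hstep.trans ((P2_ex h0 h1 _ _ _).trans ?_)
  have hterm : ∀ f ∈ (ebx e k).erase e, P2 τ (ebx e k) (PD k e f) ≤
      τ * bb K C1 C2 k (ds e f) := by
    intro f hf
    obtain ⟨hfe, hf⟩ := Finset.mem_erase.mp hf
    have hfk : ds e f ≤ k := by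
      unfold ebx at hf
      have h2 := mem_co hf
      rw [ds_le, abs_le, abs_le]
      omega
    by_cases h2 : 2 * ds e f + 2 ≤ k
    · refine (bulkD hA h0 h1 hQF hf hfe h2).trans (mul_le_mul_of_nonneg_left ?_ h0)
      refine (numA hK hC1 h2).trans ?_
      unfold bb
      have : 0 ≤ 4096 * (K ^ 2 * C2) * ((k:ℝ) ^ (-(37/24) : ℝ) *
        (((k - ds e f : ℕ) : ℝ) + 1) ^ (-(23/24) : ℝ)) := by positivity
      linarith
    · refine (bdryD (t := k - ds e f) hS h0 h1 hQF hf hfe rfl (by omega) rfl rfl (by omega)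
        hk64 hη).trans (mul_le_mul_of_nonneg_left ?_ h0)
      refine (numB (s := ds e f) hK hC2 (by omega) rfl rfl hk64).trans ?_
      unfold bb
      have : 0 ≤ 108 * (K ^ 2 * C1) * (((ds e f : ℝ) + 1) ^ (-(5/4) : ℝ) *
        (k:ℝ) ^ (-(5/4) : ℝ)) := by positivity
      linarith
  refine (Finset.sum_le_sum hterm).trans ?_
  rw [← Finset.mul_sum]
  apply mul_le_mul_of_nonneg_left _ h0
  refine le_trans ?_ (sum_bb (K := K) hC1 hC2 e (by omega))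
  apply Finset.sum_le_sum_of_subset_of_nonneg (Finset.erase_subset _ _)
  intro f _ _
  unfold bb
  positivity

theorem A4D_le {τ : ℝ} (h0 : 0 ≤ τ) (h1 : τ ≤ 1) (k : ℕ) (e : Edg) :
    P2 τ (ebx e k) (A4D k e) ≤ PQ (1/2) (ebx e k) (fun F => A4e k e ↑F) +
      P2 τ (ebx e k) (Chg k e) := by
  have h2 : PQ (1/2) (ebx e k) (fun F => A4e k e ↑F) =
      P2 τ (ebx e k) (fun F _ => A4e k e ↑F) := (P2_open _ _ _).symm
  rw [h2]
  refine (P2_mono h0 h1 (fun F D _ _ h => ?_)).trans (P2_or h0 h1 _ _ _)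
  obtain ⟨G, hG, hA⟩ := h
  by_cases h3 : A4e k e (↑F : Set Edg)
  · exact Or.inl h3
  · exact Or.inr ⟨G, hG, fun h4 => h3 (h4.mp hA)⟩

theorem R4_ge {τ : ℝ} (h0 : 0 ≤ τ) (h1 : τ ≤ 1) (k : ℕ) (e : Edg) :
    PQ (1/2) (ebx e k) (fun F => A4e k e ↑F) ≤ P2 τ (ebx e k) (R4 k e) +
      P2 τ (ebx e k) (Chg k e) := by
  have h2 : PQ (1/2) (ebx e k) (fun F => A4e k e ↑F) =
      P2 τ (ebx e k) (fun F _ => A4e k e ↑F) := (P2_open _ _ _).symm
  rw [h2]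
  refine (P2_mono h0 h1 (fun F D _ _ h => ?_)).trans (P2_or h0 h1 _ _ _)
  by_cases h3 : R4 k e F D
  · exact Or.inl h3
  · unfold R4 at h3
    push Not at h3
    obtain ⟨G, hG, hA⟩ := h3
    exact Or.inr ⟨G, hG, fun h4 => hA (h4.mpr h)⟩

/-- **The four-arm probability with defects**, upper bound. -/
theorem fourD : ∃ K c : ℝ, 1 ≤ K ∧ 0 < c ∧ ∀ τ : ℝ, 0 ≤ τ → τ ≤ 1 → ∀ n : ℕ, 1 ≤ n →
    τ ≤ c * (n:ℝ) ^ (-(3/4) : ℝ) → ∀ k ≤ n, QF K τ k := by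
  obtain ⟨C0, C1, C2, ε, hC0, hC1, hC2, hε, hcrit, hA, hS⟩ := NL.inp
  obtain ⟨K, hK⟩ : ∃ K : ℝ, K = 2 * C0 + 512 := ⟨_, rfl⟩
  have hK1 : 1 ≤ K := by rw [hK]; linarith
  obtain ⟨C3, hC3⟩ : ∃ C3 : ℝ, C3 = 4608 * C1 + 6291456 * C2 := ⟨_, rfl⟩
  have hC30 : 0 < C3 := by rw [hC3]; linarith
  refine ⟨K, min ε (1 / (6 * C3 * K)), hK1, lt_min hε (by positivity), ?_⟩
  intro τ hτ0 hτ1 n hn hη k
  have hn0 : (0:ℝ) < n := by exact_mod_cast hn
  induction k using Nat.strong_induction_on with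
  | _ k ih =>
    intro hkn e
    by_cases hk64 : 64 ≤ k
    · have hk0 : (0:ℝ) < k := by
        have : 0 < k := by omega
        exact_mod_cast this
      have hnk : (n:ℝ) ^ (-(3/4) : ℝ) ≤ (k:ℝ) ^ (-(3/4) : ℝ) :=
        Real.rpow_le_rpow_of_nonpos hk0 (by exact_mod_cast hkn) (by norm_num)
      have hη1 : τ ≤ ε * (k:ℝ) ^ (-(3/4) : ℝ) :=
        hη.trans (mul_le_mul (min_le_left _ _) hnk (by positivity) hε.le)
      have hη2 : τ ≤ 1 / (6 * C3 * K) * (k:ℝ) ^ (-(3/4) : ℝ) :=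
        hη.trans (mul_le_mul (min_le_right _ _) hnk (by positivity) (by positivity))
      have h1 := chg_le hK1 hC1 hC2 hA hS hτ0 hτ1 hk64 hη1 (fun j hj => ih j hj (by omega)) e
      have h1' := A4D_le hτ0 hτ1 k e
      have h2 : PQ (1/2) (ebx e k) (fun F => A4e k e ↑F) ≤ C0 * ((k:ℝ) + 1) ^ (-(5/4) : ℝ) :=
        (pr_A4e (by norm_num) (by norm_num) (Finset.Subset.refl _)).trans (hcrit k)
      rw [← hC3] at h1
      have h3 : τ * (C3 * K ^ 2 * (k:ℝ) ^ (-(1/2) : ℝ)) ≤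
          K / 2 * ((k:ℝ) + 1) ^ (-(5/4) : ℝ) := by
        have h4 : (k:ℝ) ^ (-(5/4) : ℝ) ≤ 3 * ((k:ℝ) + 1) ^ (-(5/4) : ℝ) := by
          have h5 : (k:ℝ) + 1 ≤ 2 * k := by
            have : k + 1 ≤ 2 * k := by omega
            exact_mod_cast this
          refine (pow_mono_neg (c := 2) (by norm_num) (by norm_num) h5 (by positivity)).trans ?_
          exact mul_le_mul_of_nonneg_right two54 (by positivity)
        have e1 : (k:ℝ) ^ (-(3/4) : ℝ) * (k:ℝ) ^ (-(1/2) : ℝ) = (k:ℝ) ^ (-(5/4) : ℝ) := by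
          rw [← Real.rpow_add hk0]; norm_num
        calc τ * (C3 * K ^ 2 * (k:ℝ) ^ (-(1/2) : ℝ))
            ≤ (1 / (6 * C3 * K) * (k:ℝ) ^ (-(3/4) : ℝ)) * (C3 * K ^ 2 * (k:ℝ) ^ (-(1/2) : ℝ)) :=
              mul_le_mul_of_nonneg_right hη2 (by positivity)
          _ = K / 6 * ((k:ℝ) ^ (-(3/4) : ℝ) * (k:ℝ) ^ (-(1/2) : ℝ)) := by
              field_simp
          _ = K / 6 * (k:ℝ) ^ (-(5/4) : ℝ) := by rw [e1]
          _ ≤ K / 6 * (3 * ((k:ℝ) + 1) ^ (-(5/4) : ℝ)) := by gcongr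
          _ = _ := by ring
      have h5 : C0 ≤ K / 2 := by rw [hK]; linarith
      have h6 : 0 < ((k:ℝ) + 1) ^ (-(5/4) : ℝ) := by positivity
      nlinarith
    · refine (P2_le_one hτ0 hτ1 _ _).trans ?_
      have h1 : (64:ℝ) ^ (-(5/4) : ℝ) ≤ ((k:ℝ) + 1) ^ (-(5/4) : ℝ) := by
        apply Real.rpow_le_rpow_of_nonpos (by positivity) _ (by norm_num)
        have : k + 1 ≤ 64 := by omega
        exact_mod_cast this
      have h2 : (1:ℝ) / 512 ≤ (64:ℝ) ^ (-(5/4) : ℝ) := by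
        rw [Real.rpow_neg (by norm_num), ← one_div]
        apply one_div_le_one_div_of_le (by positivity)
        calc (64:ℝ) ^ (5/4 : ℝ) ≤ (64:ℝ) ^ (3/2 : ℝ) :=
              Real.rpow_le_rpow_of_exponent_le (by norm_num) (by norm_num)
          _ = 512 := by
              rw [show (64:ℝ) = (2:ℝ) ^ (6:ℝ) by norm_num, ← Real.rpow_mul (by norm_num)]
              norm_num
      have h3 : 512 ≤ K := by rw [hK]; linarith
      nlinarith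

/-- **The four-arm event survives the defects**, lower bound. -/
theorem rob_low : ∃ c0 c : ℝ, 0 < c0 ∧ 0 < c ∧ ∀ τ : ℝ, 0 ≤ τ → τ ≤ 1 → ∀ n : ℕ, 1 ≤ n →
    τ ≤ c * (n:ℝ) ^ (-(3/4) : ℝ) → ∀ k : ℕ, 1 ≤ k → k ≤ n → ∀ e : Edg,
      c0 * (k:ℝ) ^ (-(5/4) : ℝ) ≤ P2 τ (ebx e k) (R4 k e) := by
  obtain ⟨C0, C1, C2, ε, hC0, hC1, hC2, hε, hcrit, hA, hS⟩ := NL.inp
  obtain ⟨K, c1, hK, hc1, hfour⟩ := fourD
  obtain ⟨c2, hc2, hlow⟩ := crit_low
  obtain ⟨C3, hC3⟩ : ∃ C3 : ℝ, C3 = 4608 * C1 + 6291456 * C2 := ⟨_, rfl⟩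
  have hC30 : 0 < C3 := by rw [hC3]; linarith
  obtain ⟨c', hc'⟩ : ∃ c' : ℝ, c' = min (min ε c1) (c2 / (2 * (C3 * K ^ 2))) := ⟨_, rfl⟩
  have hc'0 : 0 < c' := by rw [hc']; exact lt_min (lt_min hε hc1) (by positivity)
  -- large boxes
  have big : ∀ τ : ℝ, 0 ≤ τ → τ ≤ 1 → ∀ k : ℕ, 64 ≤ k →
      τ ≤ c' * (k:ℝ) ^ (-(3/4) : ℝ) → ∀ e : Edg,
      c2 / 2 * (k:ℝ) ^ (-(5/4) : ℝ) ≤ P2 τ (ebx e k) (R4 k e) := by
    intro τ hτ0 hτ1 k hk hη e
    have hk0 : (0:ℝ) < k := by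
      have : 0 < k := by omega
      exact_mod_cast this
    have hp : 0 ≤ (k:ℝ) ^ (-(3/4) : ℝ) := by positivity
    have hη1 : τ ≤ ε * (k:ℝ) ^ (-(3/4) : ℝ) :=
      hη.trans (mul_le_mul_of_nonneg_right
        (by rw [hc']; exact (min_le_left _ _).trans (min_le_left _ _)) hp)
    have hη2 : τ ≤ c1 * (k:ℝ) ^ (-(3/4) : ℝ) :=
      hη.trans (mul_le_mul_of_nonneg_right
        (by rw [hc']; exact (min_le_left _ _).trans (min_le_right _ _)) hp)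
    have hη3 : τ ≤ c2 / (2 * (C3 * K ^ 2)) * (k:ℝ) ^ (-(3/4) : ℝ) :=
      hη.trans (mul_le_mul_of_nonneg_right (by rw [hc']; exact min_le_right _ _) hp)
    have h1 := chg_le hK hC1 hC2 hA hS hτ0 hτ1 hk hη1
      (fun j hj => hfour τ hτ0 hτ1 k (by omega) hη2 j (by omega)) e
    have h1' := R4_ge hτ0 hτ1 k e
    rw [← hC3] at h1
    have h2 := hlow k (by omega) e
    have e1 : (k:ℝ) ^ (-(3/4) : ℝ) * (k:ℝ) ^ (-(1/2) : ℝ) = (k:ℝ) ^ (-(5/4) : ℝ) := by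
      rw [← Real.rpow_add hk0]; norm_num
    have h3 : τ * (C3 * K ^ 2 * (k:ℝ) ^ (-(1/2) : ℝ)) ≤
        c2 / 2 * (k:ℝ) ^ (-(5/4) : ℝ) := by
      calc τ * (C3 * K ^ 2 * (k:ℝ) ^ (-(1/2) : ℝ))
          ≤ (c2 / (2 * (C3 * K ^ 2)) * (k:ℝ) ^ (-(3/4) : ℝ)) *
            (C3 * K ^ 2 * (k:ℝ) ^ (-(1/2) : ℝ)) := mul_le_mul_of_nonneg_right hη3 (by positivity)
        _ = c2 / 2 * ((k:ℝ) ^ (-(3/4) : ℝ) * (k:ℝ) ^ (-(1/2) : ℝ)) := by
            field_simp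
        _ = _ := by rw [e1]
    linarith
  refine ⟨c2 / 2 * (64:ℝ) ^ (-(5/4) : ℝ), c' * (64:ℝ) ^ (-(3/4) : ℝ), by positivity,
    by positivity, ?_⟩
  intro τ hτ0 hτ1 n hn hη k hk hkn e
  have hn0 : (0:ℝ) < n := by exact_mod_cast hn
  have hk0 : (0:ℝ) < k := by exact_mod_cast hk
  obtain ⟨m, hm⟩ : ∃ m : ℕ, m = max k 64 := ⟨_, rfl⟩
  have hm64 : 64 ≤ m := by omega
  have hkm : k ≤ m := by omega
  have hm0 : (0:ℝ) < m := by
    have : 0 < m := by omega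
    exact_mod_cast this
  have hsub : ebx e k ⊆ ebx e m := by
    unfold ebx
    exact RE_subset (by omega) (by omega) (by omega) (by omega)
  have hη' : τ ≤ c' * (m:ℝ) ^ (-(3/4) : ℝ) := by
    refine hη.trans ?_
    rw [mul_assoc, ← Real.mul_rpow (by norm_num) hn0.le]
    apply mul_le_mul_of_nonneg_left _ hc'0.le
    apply Real.rpow_le_rpow_of_nonpos hm0 _ (by norm_num)
    have : m ≤ 64 * n := by omega
    exact_mod_cast this
  have h1 := big τ hτ0 hτ1 m hm64 hη' e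
  have h2 : P2 τ (ebx e m) (R4 m e) ≤ P2 τ (ebx e k) (R4 k e) := by
    rw [← P2_local hsub (R4_loc k e (ebx e m))]
    apply P2_mono hτ0 hτ1
    intro F D _ _ hF G hG
    have he : e ∈ RE (e.1 - k) (e.1 + k) (e.2.1 - k) (e.2.1 + k) := mem_ebx hk
    exact A4_sub (by omega) (by omega) (by omega) (by omega) he (hF G hG)
  refine le_trans ?_ (h1.trans h2)
  have h5 : (64:ℝ) ^ (-(5/4) : ℝ) * (k:ℝ) ^ (-(5/4) : ℝ) ≤ (m:ℝ) ^ (-(5/4) : ℝ) := by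
    rw [← Real.mul_rpow (by norm_num) hk0.le]
    apply Real.rpow_le_rpow_of_nonpos hm0 _ (by norm_num)
    have : m ≤ 64 * k := by omega
    exact_mod_cast this
  calc c2 / 2 * (64:ℝ) ^ (-(5/4) : ℝ) * (k:ℝ) ^ (-(5/4) : ℝ)
      = c2 / 2 * ((64:ℝ) ^ (-(5/4) : ℝ) * (k:ℝ) ^ (-(5/4) : ℝ)) := by ring
    _ ≤ c2 / 2 * (m:ℝ) ^ (-(5/4) : ℝ) := mul_le_mul_of_nonneg_left h5 (by positivity)

/-- **Both bounds.** -/
theorem both_def : ∃ c C ε : ℝ, 0 < c ∧ 0 < C ∧ 0 < ε ∧ ∀ τ : ℝ, 0 ≤ τ → τ ≤ 1 → ∀ n : ℕ,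
    1 ≤ n → τ ≤ ε * (n:ℝ) ^ (-(3/4) : ℝ) → ∀ k : ℕ, 1 ≤ k → k ≤ n →
    ∀ (e : Edg) (S : Finset Edg), ebx e k ⊆ S →
      c * (k:ℝ) ^ (-(5/4) : ℝ) ≤ P2 τ S (R4 k e) ∧
      P2 τ S (A4D k e) ≤ C * (k:ℝ) ^ (-(5/4) : ℝ) := by
  obtain ⟨c0, c, hc0, hc, hlow⟩ := rob_low
  obtain ⟨K, c1, hK, hc1, hfour⟩ := fourD
  refine ⟨c0, K, min c c1, hc0, by linarith, by positivity, ?_⟩
  intro τ hτ0 hτ1 n hn hη k hk hkn e S hS
  have hk0 : (0:ℝ) < k := by exact_mod_cast hk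
  have hp : 0 ≤ (n:ℝ) ^ (-(3/4) : ℝ) := by positivity
  constructor
  · rw [P2_local hS (R4_loc k e S)]
    exact hlow τ hτ0 hτ1 n hn (hη.trans (mul_le_mul_of_nonneg_right (min_le_left _ _) hp))
      k hk hkn e
  · refine ((hfour τ hτ0 hτ1 n hn
      (hη.trans (mul_le_mul_of_nonneg_right (min_le_right _ _) hp)) k hkn).big hS).trans ?_
    apply mul_le_mul_of_nonneg_left _ (by linarith)
    exact Real.rpow_le_rpow_of_nonpos hk0 (by linarith) (by norm_num)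

end Q291.AD
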