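import Pool.Agent.Q291.AD.Law
import Pool.Agent.Q291.EP.Coll
import Pool.Agent.Q291.EP.Nd

/-!
Above the window, the defects change the curve macroscopically.
-/

set_option autoImplicit false
set_option maxHeartbeats 2000000

namespace Q291.AD

open H974 Finset H342P H984P H984N Q291.EP

theorem adm_union {E : Type*} [DecidableEq E] (F Q : Finset E) : Adm F Q (F ∪ Q) := by
  intro e he
  rw [Finset.mem_union]
  exact ⟨fun h => h.resolve_right he, Or.inl⟩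

theorem sharp (R : Rect) : ∃ c K δ0 : ℝ, 0 < c ∧ 0 < K ∧ 0 < δ0 ∧ ∀ δ : ℝ, 0 < δ → δ ≤ δ0 →
    ∀ τ : ℝ, K * δ ^ (3/4 : ℝ) ≤ τ → τ ≤ 1 → c ≤ P2 τ (R.dm δ).edges (Far R δ c) := by
  obtain ⟨c1, δ1, hc1, hδ1, hnd⟩ := nondeg R
  obtain ⟨c2, C2, δ2, hc2, hC2, hδ2, hco⟩ := collapse R
  have hc11 : c1 ≤ 1 := (hnd δ1 hδ1 le_rfl).1.trans (Pr_le_one (okp (by norm_num) (by norm_num)) _ _)
  obtain ⟨ε, hε⟩ : ∃ ε : ℝ, ε = c1 / 2 := ⟨_, rfl⟩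
  have hε0 : 0 < ε := by rw [hε]; positivity
  have hε1 : ε ≤ 1 := by rw [hε]; linarith
  obtain ⟨M, hM⟩ : ∃ M : ℝ, M = C2 * (ε ^ 2)⁻¹ := ⟨_, rfl⟩
  have hM0 : 0 < M := by rw [hM]; positivity
  obtain ⟨L, hL⟩ : ∃ L : ℝ, L = Real.log (M / ε) := ⟨_, rfl⟩
  obtain ⟨Y, hY⟩ : ∃ Y : ℝ, Y = max 1 (L / (c2 * ε)) := ⟨_, rfl⟩
  have hY1 : 1 ≤ Y := by rw [hY]; exact le_max_left _ _
  have hY2 : L / (c2 * ε) ≤ Y := by rw [hY]; exact le_max_right _ _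
  refine ⟨ε, 2 * Y, min δ1 δ2, hε0, by linarith, lt_min hδ1 hδ2, ?_⟩
  intro δ hδ hδ' τ hτ hτ1
  have hd : 0 < δ ^ (3/4 : ℝ) := by positivity
  have hτ0 : 0 < τ := lt_of_lt_of_le (by positivity) hτ
  have d1 := hδ'.trans (min_le_left _ _)
  have d2 := hδ'.trans (min_le_right _ _)
  have h1 := (hnd δ hδ d1).1
  have h2 := (hco δ hδ d2 ε hε0 hε1 ((1 + τ) / 2) (by linarith) (by linarith)).1 (by linarith)
  have e1 : |(1 + τ) / 2 - 1 / 2| = τ / 2 := by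
    rw [show (1 + τ) / 2 - 1 / 2 = τ / 2 by ring]
    exact abs_of_pos (by linarith)
  rw [e1, ← hM] at h2
  have hy : Y ≤ τ / 2 * δ ^ (-(3/4) : ℝ) := by
    have h3 : δ ^ (3/4 : ℝ) * δ ^ (-(3/4) : ℝ) = 1 := by
      rw [← Real.rpow_add hδ]; norm_num
    calc Y = Y * (δ ^ (3/4 : ℝ) * δ ^ (-(3/4) : ℝ)) := by rw [h3, mul_one]
      _ = (Y * δ ^ (3/4 : ℝ)) * δ ^ (-(3/4) : ℝ) := by ring
      _ ≤ τ / 2 * δ ^ (-(3/4) : ℝ) :=
        mul_le_mul_of_nonneg_right (by linarith) (by positivity)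
  have hy2 : Y ≤ (τ / 2 * δ ^ (-(3/4) : ℝ)) ^ (4/3 : ℝ) := by
    have h3 : 1 ≤ τ / 2 * δ ^ (-(3/4) : ℝ) := hY1.trans hy
    have h4 : (τ / 2 * δ ^ (-(3/4) : ℝ)) ^ (1:ℝ) ≤ (τ / 2 * δ ^ (-(3/4) : ℝ)) ^ (4/3 : ℝ) :=
      Real.rpow_le_rpow_of_exponent_le h3 (by norm_num)
    rw [Real.rpow_one] at h4
    exact hy.trans h4
  have h3 : prp R ((1 + τ) / 2) δ (fun F => ∃ s : unitInterval, ∀ z ∈ arcF R,
      ε ≤ dist (R.curve δ F s) z) ≤ ε := by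
    refine h2.trans ?_
    have h4 : L ≤ c2 * ε * (τ / 2 * δ ^ (-(3/4) : ℝ)) ^ (4/3 : ℝ) := by
      have : L ≤ c2 * ε * Y := by
        rw [div_le_iff₀ (by positivity)] at hY2
        linarith
      exact this.trans (mul_le_mul_of_nonneg_left hy2 (by positivity))
    have h5 : Real.exp (-(c2 * ε * (τ / 2 * δ ^ (-(3/4) : ℝ)) ^ (4/3 : ℝ))) ≤ ε / M := by
      have h6 : Real.exp (-L) = ε / M := by
        rw [Real.exp_neg, hL, Real.exp_log (by positivity), inv_div]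
      rw [← h6]
      exact Real.exp_le_exp.mpr (by linarith)
    calc M * Real.exp (-(c2 * ε * (τ / 2 * δ ^ (-(3/4) : ℝ)) ^ (4/3 : ℝ)))
        ≤ M * (ε / M) := mul_le_mul_of_nonneg_left h5 hM0.le
      _ = ε := by field_simp
  have h4 : P2 τ (R.dm δ).edges (fun F Q => ∃ s : unitInterval, ∀ z ∈ arcF R,
      ε ≤ dist (R.curve δ (F ∪ Q) s) z) ≤ ε := by
    rw [P2_union τ (R.dm δ).edges (fun G => ∃ s : unitInterval, ∀ z ∈ arcF R,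
      ε ≤ dist (R.curve δ G s) z)]
    exact h3
  have h5 : c1 ≤ P2 τ (R.dm δ).edges (fun F _ => ∃ s : unitInterval, ∀ z ∈ arcF R,
      c1 ≤ dist (R.curve δ F s) z) := by
    rw [P2_open]
    exact h1
  have h6 : P2 τ (R.dm δ).edges (fun F _ => ∃ s : unitInterval, ∀ z ∈ arcF R,
      c1 ≤ dist (R.curve δ F s) z) ≤
      P2 τ (R.dm δ).edges (fun F Q => Far R δ ε F Q ∨ ∃ s : unitInterval, ∀ z ∈ arcF R,
      ε ≤ dist (R.curve δ (F ∪ Q) s) z) := by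
    refine P2_mono hτ0.le hτ1 ?_
    rintro F Q _ _ ⟨s, hs⟩
    by_cases hB : ∃ s : unitInterval, ∀ z ∈ arcF R, ε ≤ dist (R.curve δ (F ∪ Q) s) z
    · exact Or.inr hB
    · refine Or.inl ⟨F ∪ Q, adm_union F Q, ?_⟩
      rintro ⟨φ, hφ⟩
      push Not at hB
      obtain ⟨z, hz, hlt⟩ := hB (φ.symm s)
      have h7 := hφ (φ.symm s)
      rw [OrderIso.apply_symm_apply] at h7
      have h8 := hs z hz
      have h9 := dist_triangle (R.curve δ F s) (R.curve δ (F ∪ Q) (φ.symm s)) z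
      rw [dist_comm (R.curve δ F s) (R.curve δ (F ∪ Q) (φ.symm s))] at h9
      linarith
  have h7 := h6.trans (P2_or hτ0.le hτ1 _ _ _)
  linarith

end Q291.AD
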